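import Pool.Agent.helper93.PX.Conv

set_option autoImplicit false

namespace Pool.Agent.PX

open Polynomial

/-- Salem number: algebraic integer > 1, all other conjugates of modulus at most 1, at least one of
modulus 1 (as in S16397). -/
def IsSalem (β : ℝ) : Prop :=
  IsIntegral ℤ β ∧ 1 < β ∧
    (∀ z : ℂ, Polynomial.aeval z (minpoly ℤ β) = 0 → z ≠ (β : ℂ) → ‖z‖ ≤ 1) ∧
    ∃ z : ℂ, Polynomial.aeval z (minpoly ℤ β) = 0 ∧ ‖z‖ = 1

/-- Alternate base of length p with product β (entries repeated periodically). -/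
def IsAlt (β : ℝ) (p : ℕ) (b : ℕ → ℝ) : Prop :=
  0 < p ∧ (∀ n, b (n + p) = b n) ∧ (∀ n, 1 < b n) ∧ β = ∏ i ∈ Finset.range p, b i

/-- All entries lie in ℚ(β). -/
def InField (β : ℝ) (b : ℕ → ℝ) : Prop :=
  ∀ n, b n ∈ IntermediateField.adjoin ℚ ({β} : Set ℝ)

/-- r is the sequence of remainders of the greedy expansion of 1 for the i-th shift of b. -/
def IsGreedy (b : ℕ → ℝ) (i : ℕ) (r : ℕ → ℝ) : Prop :=
  r 0 = 1 ∧ ∀ n, r (n + 1) = b (n + i) * r n - (⌊b (n + i) * r n⌋ : ℝ)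

/-- Parry: for every shift the greedy expansion of 1 has ultimately periodic digits. -/
def IsParry (p : ℕ) (b : ℕ → ℝ) : Prop :=
  ∀ i, i < p → ∀ r : ℕ → ℝ, IsGreedy b i r →
    ∃ N T : ℕ, 0 < T ∧ ∀ n, N ≤ n → ⌊b (n + T + i) * r (n + T)⌋ = ⌊b (n + i) * r n⌋

/-- Simple Parry: for every shift the greedy expansion of 1 is finite. -/
def IsSimpleParry (b : ℕ → ℝ) : Prop :=
  ∀ (i : ℕ) (r : ℕ → ℝ), IsGreedy b i r → ∃ N : ℕ, ∀ n, N ≤ n → r n = 0

theorem FIN_simple (p : ℕ) (b : ℕ → ℝ) (h : IsSimpleParry b) : IsParry p b := by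
  intro i _ r hr
  obtain ⟨N, hN⟩ := h i r hr
  refine ⟨N, 1, one_pos, fun n hn => ?_⟩
  rw [hN n hn, hN (n + 1) (by omega)]
  simp

theorem FIN_salem (β : ℝ) (h : IsSalem β) : IsPerron β :=
  ⟨h.1, h.2.1, fun z hz hzβ => lt_of_le_of_lt (h.2.2.1 z hz hzβ) h.2.1⟩

theorem FIN_rmd (b : ℕ → ℝ) (i : ℕ) : IsGreedy b i (rmd b i) := ⟨rfl, fun _ => rfl⟩

theorem FIN_parry_perron (β : ℝ) (p : ℕ) (b : ℕ → ℝ) (hb : IsAlt β p b) (hK : InField β b)
    (h : IsParry p b) : IsPerron β := by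
  obtain ⟨hp, hper, h1, hprod⟩ := hb
  have hfin : ∀ i, (Set.range (rmd b i)).Finite := by
    intro i
    have h2 : rmd b i = rmd b (i % p) := funext fun n => CONV_mod b p hper i n
    rw [h2]
    exact CONV_fin b p hp hper h1 (i % p) (h (i % p) (Nat.mod_lt _ hp) _ (FIN_rmd b _))
  have hβ1 : 1 < β := by
    obtain ⟨n, rfl⟩ : ∃ n, p = n + 1 := ⟨p - 1, by omega⟩
    rw [hprod]
    have h3 : ∀ m, 1 ≤ ∏ i ∈ Finset.range m, b i := by
      intro m
      induction m with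
      | zero => simp
      | succ m ih =>
        rw [Finset.prod_range_succ]
        nlinarith [h1 m]
    rw [Finset.prod_range_succ]
    nlinarith [h1 n, h3 n]
  have hint := CONV_int b p hp hper hfin β hprod
  exact ⟨hint, hβ1, fun z hz hzβ => CONV_conj b p hp hper h1 β hβ1 hint hprod hK hfin z hz hzβ⟩

/-- Refinements with the definitions above. -/
theorem FIN_ref (hM : MAIN_stmt) (β : ℝ) (hβ : IsPerron β) (p : ℕ) (b : ℕ → ℝ)
    (hb : IsAlt β p b) (hK : InField β b) (ε : ℝ) (hε : 0 < ε) :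
    ∃ (κ : ℕ → ℕ) (α : ℕ → ℝ), κ 0 = 0 ∧ StrictMono κ ∧ IsAlt β (κ p) α ∧ InField β α ∧
      IsSimpleParry α ∧ ∀ j, j < p → ∏ i ∈ Finset.Ico (κ j) (κ (j + 1)), α i = b j ∧
        ∏ i ∈ Finset.Ico (κ j + 1) (κ (j + 1)), α i < 1 + ε := by
  obtain ⟨hp, hper, h1, hprod⟩ := hb
  obtain ⟨κ, α, hκ0, hκ, hαp, hα1, hαK, hbl, hαprod, hr⟩ := hM β hβ p b hp hper h1 hprod hK ε hε
  refine ⟨κ, α, hκ0, hκ, ⟨?_, hαp, hα1, hαprod⟩, hαK, ?_, hbl⟩
  · rw [← hκ0]
    exact hκ hp
  · intro i r hir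
    obtain ⟨N, hN⟩ := hr i r hir.1 hir.2
    exact ⟨N, fun n hn => (hN n hn).1⟩

/-- Approximation of a real base by a base with entries in ℚ(β). -/
theorem FIN_approx (β : ℝ) (p : ℕ) (b : ℕ → ℝ) (hb : IsAlt β p b) (ε : ℝ) (hε : 0 < ε) :
    ∃ b' : ℕ → ℝ, IsAlt β p b' ∧ InField β b' ∧ ∀ j, |b' j - b j| < ε := by
  obtain ⟨hp, hper, h1, hprod⟩ := hb
  obtain ⟨q, rfl⟩ : ∃ q, p = q + 1 := ⟨p - 1, by omega⟩
  set K := IntermediateField.adjoin ℚ ({β} : Set ℝ) with hKdef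
  have hβK : β ∈ K := IntermediateField.mem_adjoin_simple_self ℚ β
  -- the bound for the last entry
  have hbq := h1 q
  obtain ⟨η, hη0, hη1, hη2⟩ : ∃ η : ℝ, 0 < η ∧ 1 * (1 + η) ^ q < b q ∧
      (b q - ε) * (1 + η) ^ q < b q := by
    have hc : ContinuousAt (fun η : ℝ => (1 + η) ^ q) 0 := by fun_prop
    have e1 : ∀ᶠ η : ℝ in nhds 0, 1 * (1 + η) ^ q < b q := by
      have : ContinuousAt (fun η : ℝ => 1 * (1 + η) ^ q) 0 := by fun_prop
      exact this.eventually_lt_const (by simpa using hbq)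
    have e2 : ∀ᶠ η : ℝ in nhds 0, (b q - ε) * (1 + η) ^ q < b q := by
      have : ContinuousAt (fun η : ℝ => (b q - ε) * (1 + η) ^ q) 0 := by fun_prop
      exact this.eventually_lt_const (by simpa using hε)
    have e3 : ∀ᶠ η : ℝ in nhdsWithin 0 (Set.Ioi 0), 0 < η ∧ 1 * (1 + η) ^ q < b q ∧
        (b q - ε) * (1 + η) ^ q < b q := by
      filter_upwards [self_mem_nhdsWithin, nhdsWithin_le_nhds e1, nhdsWithin_le_nhds e2] with
        x h1 h2 h3
      exact ⟨h1, h2, h3⟩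
    exact e3.exists
  have hrat : ∀ j : ℕ, ∃ x : ℚ, b j < x ∧ (x : ℝ) < min (b j * (1 + η)) (b j + ε) := by
    intro j
    apply exists_rat_btwn
    rw [lt_min_iff]
    have := h1 j
    constructor
    · nlinarith
    · linarith
  choose x hx1 hx2 using hrat
  set P : ℝ := ∏ i ∈ Finset.range q, (x i : ℝ) with hP
  have hPK : P ∈ K := K.prod_mem fun i _ => by simp
  have hB0 : ∀ m, 0 < ∏ i ∈ Finset.range m, b i := fun m =>
    Finset.prod_pos fun i _ => by linarith [h1 i]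
  have hPlo : ∀ m, ∏ i ∈ Finset.range m, b i ≤ ∏ i ∈ Finset.range m, (x i : ℝ) := fun m =>
    Finset.prod_le_prod (fun i _ => by linarith [h1 i]) (fun i _ => (hx1 i).le)
  have hPhi : ∀ m, ∏ i ∈ Finset.range m, (x i : ℝ) ≤
      (∏ i ∈ Finset.range m, b i) * (1 + η) ^ m := by
    intro m
    have h2 : (∏ i ∈ Finset.range m, b i) * (1 + η) ^ m =
        ∏ i ∈ Finset.range m, (b i * (1 + η)) := by
      rw [Finset.prod_mul_distrib]
      simp
    rw [h2]
    exact Finset.prod_le_prod (fun i _ => by linarith [h1 i, hx1 i])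
      (fun i _ => ((hx2 i).trans_le (min_le_left _ _)).le)
  have hP0 : 0 < P := lt_of_lt_of_le (hB0 q) (hPlo q)
  have hβe : β = (∏ i ∈ Finset.range q, b i) * b q := by rw [hprod, Finset.prod_range_succ]
  set y : ℝ := β / P with hy
  have hyhi : y ≤ b q := by
    rw [hy, div_le_iff₀ hP0, hβe, mul_comm]
    exact mul_le_mul_of_nonneg_left (hPlo q) (by linarith)
  have hη3 : 0 < (1 + η) ^ q := by positivity
  have hylo : b q / (1 + η) ^ q ≤ y := by
    rw [hy, div_le_div_iff₀ hη3 hP0, hβe]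
    have := hPhi q
    nlinarith
  have hy1 : 1 < y := by
    refine lt_of_lt_of_le ?_ hylo
    rw [lt_div_iff₀ hη3]
    exact hη1
  have hyε : b q - ε < y := by
    refine lt_of_lt_of_le ?_ hylo
    rw [lt_div_iff₀ hη3]
    exact hη2
  set b' : ℕ → ℝ := fun n => if n % (q + 1) = q then y else (x (n % (q + 1)) : ℝ) with hb'
  have hbmod : ∀ n, b n = b (n % (q + 1)) := MAIN_per_mod b (q + 1) hper
  refine ⟨b', ⟨by omega, ?_, ?_, ?_⟩, ?_, ?_⟩
  · intro n
    simp [hb']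
  · intro n
    simp only [hb']
    split_ifs
    · exact hy1
    · linarith [h1 (n % (q + 1)), hx1 (n % (q + 1))]
  · rw [Finset.prod_range_succ]
    have e1 : ∏ i ∈ Finset.range q, b' i = P := by
      rw [hP]
      refine Finset.prod_congr rfl fun i hi => ?_
      have hi' := Finset.mem_range.1 hi
      simp only [hb']
      rw [Nat.mod_eq_of_lt (by omega), if_neg (by omega)]
    have e2 : b' q = y := by
      simp only [hb']
      rw [Nat.mod_eq_of_lt (by omega), if_pos rfl]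
    rw [e1, e2, hy]
    field_simp
  · intro n
    simp only [hb']
    split_ifs
    · exact K.div_mem hβK hPK
    · simp
  · intro n
    rw [hbmod n]
    simp only [hb']
    split_ifs with h
    · rw [h, abs_lt]
      constructor <;> linarith
    · have h2 := hx1 (n % (q + 1))
      have h3 := (hx2 (n % (q + 1))).trans_le (min_le_right _ _)
      rw [abs_lt]
      constructor <;> linarith

/-- Density: every real alternate base with Perron product is a limit of simple Parry bases. -/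
theorem FIN_dense (hM : MAIN_stmt) (β : ℝ) (hβ : IsPerron β) (p : ℕ) (b : ℕ → ℝ)
    (hb : IsAlt β p b) (ε : ℝ) (hε : 0 < ε) :
    ∃ (κ : ℕ → ℕ) (α : ℕ → ℝ), κ 0 = 0 ∧ StrictMono κ ∧ IsAlt β (κ p) α ∧ InField β α ∧
      IsSimpleParry α ∧ ∀ j, j < p → |α (κ j) - b j| < ε ∧
        ∏ i ∈ Finset.Ico (κ j + 1) (κ (j + 1)), α i < 1 + ε := by
  -- upper bound of the entries
  have hb' := hb
  obtain ⟨hp, hper, h1, hprod⟩ := hb'
  obtain ⟨i₀, hi₀, hmax₀⟩ := Finset.exists_max_image (Finset.range p) b ⟨0, by simpa using hp⟩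
  have hBm : ∀ n, b n ≤ b i₀ := by
    intro n
    rw [MAIN_per_mod b p hper n]
    exact hmax₀ _ (Finset.mem_range.2 (Nat.mod_lt _ hp))
  set Bd := b i₀ + 1 with hBd
  have hBd1 : 1 < Bd := by linarith [h1 i₀]
  obtain ⟨b', hb'1, hb'K, hb'ε⟩ := FIN_approx β p b hb (min (ε / 2) 1) (by positivity)
  obtain ⟨κ, α, hκ0, hκ, hα, hαK, hs, hbl⟩ := FIN_ref hM β hβ p b' hb'1 hb'K
    (min ε (ε / (2 * Bd))) (by positivity)
  refine ⟨κ, α, hκ0, hκ, hα, hαK, hs, fun j hj => ⟨?_, ?_⟩⟩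
  · obtain ⟨h2, h3⟩ := hbl j hj
    have hlt : κ j < κ (j + 1) := hκ (Nat.lt_succ_self j)
    rw [Finset.prod_eq_prod_Ico_succ_bot hlt] at h2
    set t := ∏ i ∈ Finset.Ico (κ j + 1) (κ (j + 1)), α i with ht
    have ht1 : 1 ≤ t := Finset.prod_induction α (fun x => 1 ≤ x)
      (fun u v hu hv => by nlinarith) le_rfl (fun i _ => (hα.2.2.1 i).le)
    have hα1 := hα.2.2.1 (κ j)
    have h4 : b' j < Bd := by
      have := (abs_lt.1 (hb'ε j)).2
      have h5 := hBm j
      have h6 := min_le_right (ε / 2) (1 : ℝ)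
      rw [hBd]
      linarith
    have h7 : t < 1 + ε / (2 * Bd) := lt_of_lt_of_le h3 (by
      have := min_le_right ε (ε / (2 * Bd))
      linarith)
    have h8 : α (κ j) ≤ b' j := by rw [← h2]; nlinarith
    have h9 : b' j - α (κ j) < ε / 2 := by
      have e : b' j - α (κ j) = α (κ j) * (t - 1) := by rw [← h2]; ring
      rw [e]
      have h10 : t - 1 < ε / (2 * Bd) := by linarith
      have h11 : α (κ j) < Bd := by linarith
      have h12 : Bd * (ε / (2 * Bd)) = ε / 2 := by field_simp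
      have h13 : 0 < ε / (2 * Bd) := by positivity
      nlinarith
    have h14 := abs_lt.1 (hb'ε j)
    have h15 := min_le_left (ε / 2) (1 : ℝ)
    rw [abs_lt]
    constructor <;> linarith [h14.1, h14.2]
  · have := (hbl j hj).2
    have h2 := min_le_left ε (ε / (2 * Bd))
    linarith

end Pool.Agent.PX
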