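import Mathlib

/-!
# MP_2b41e9_nt: Parry refinements of alternate bases with Perron (Salem) product

Architect helper93. Main theorem (file Main.lean): if beta is a Perron number (for instance a
Salem number), `b` an alternate base of length p with entries > 1 in Q(beta) and product beta and
eps > 0, then every entry factors into factors > 1 of Q(beta), all but the first with product
less than 1 + eps, such that for the refined base the greedy expansion of 1 is finite for every
shift.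

Rows: CF SG DEN OA OB OC CH RL RH RS BW CAT RC (RC = run along the concatenation).
-/

set_option autoImplicit false

namespace Pool.Agent.PX

open Polynomial

/-- Perron number: algebraic integer > 1 all of whose other conjugates are smaller in modulus. -/
def IsPerron (β : ℝ) : Prop :=
  IsIntegral ℤ β ∧ 1 < β ∧
    ∀ z : ℂ, Polynomial.aeval z (minpoly ℤ β) = 0 → z ≠ (β : ℂ) → ‖z‖ < β

/-! ## Algebra -/

/-- **Row CF** (medium-long). Coefficients of beta^k y are at most V beta^k y with V uniform.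
Proof: f = minpoly ℤ β is monic, irreducible over ℚ, hence separable over ℂ; let s be the finite
set of its complex roots, card s = natDegree f = d. Put Q = (X^k * P) %ₘ f, natDegree < d, and
Q(z) = z^k P(z) for z in s. Lagrange interpolation (`Lagrange.eq_interpolate` or
`Lagrange.interpolate` on s with nodes id): Q = sum over z in s of C (Q z) * Lagrange.basis s id z,
so |coeff i Q| <= sum |z|^k |P z| M where M bounds all coefficients of all basis polynomials
(finitely many; for i >= d the coefficient is 0). The root β contributes M β^k P(β); every other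
root has |z| < β, so |z|^k |P z| <= β^k P(β) / (d+1) for large k. Hence V = 2 M + 1 works. -/
def CF_stmt : Prop := ∀ β : ℝ, IsPerron β → ∃ V : ℝ, 0 < V ∧ ∀ P : ℤ[X], 0 < aeval β P →
  ∃ k₀ : ℕ, ∀ k : ℕ, k₀ ≤ k → ∀ i : ℕ,
    |((((X ^ k * P) %ₘ minpoly ℤ β).coeff i : ℤ) : ℝ)| ≤ V * (β ^ k * aeval β P)

/-- **Row SG** (medium). `theorem SG (hCF : CF_stmt) : SG_stmt`.
Proof: d = natDegree (minpoly ℤ β), r0 = sum over i < d of β^i, V from CF. For h large
((c - 1) h > 2 r0 + 2 and h > 0) let G be the set of values g(β) of the integer polynomials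
g = sum over i < d of g_i X^i with |g_i| <= V c h + 1 (finitely many integer vectors) and
h < g(β) < c h. Given y > 0 in ℤ[β], y = aeval β P, put Y = β^k y with k large (k >= k₀(P), and Y as
large as we like), c_i the coefficients of (X^k * P) %ₘ f (so Y = sum c_i β^i, |c_i| <= V Y).
Choose n >= 1 with h + r0 < Y / n < c h - r0 (the real interval (Y/(c h - r0), Y/(h + r0)) has
length > 1 for Y large, so it contains a natural number n). For 1 <= m <= n put
g_m = sum over i < d of (⌊m c_i / n⌋ - ⌊(m-1) c_i / n⌋) β^i. Each integer coefficient is within 1 of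
c_i / n, so |g_m - Y/n| <= r0 (strict), hence h < g_m < c h, and |coefficient| <= V Y / n + 1
<= V c h + 1: g_m in G. Telescoping: sum g_m = sum c_i β^i = Y. -/
def SG_stmt : Prop := ∀ β : ℝ, IsPerron β → ∀ c : ℝ, 1 < c → ∃ h₀ : ℝ, ∀ h : ℝ, h₀ ≤ h →
  ∃ G : Finset ℝ, (∀ g ∈ G, g ∈ Algebra.adjoin ℤ ({β} : Set ℝ) ∧ h < g ∧ g < c * h) ∧
    ∀ y : ℝ, y ∈ Algebra.adjoin ℤ ({β} : Set ℝ) → 0 < y → ∃ k₀ : ℕ, ∀ k : ℕ, k₀ ≤ k →
      ∃ l : List ℝ, (∀ g ∈ l, g ∈ G) ∧ l.sum = β ^ k * y

/-- **Row DEN** (short-medium). Common denominators.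
Proof: `IntermediateField.adjoin_simple_toSubalgebra_of_integral` (β is integral over ℚ), so x is
in `Algebra.adjoin ℚ {β}`; `Algebra.adjoin_induction`: rational numbers (N = den), β (N = 1), sums
and products; then take the product over the finset (N multiples stay in the subalgebra). -/
def DEN_stmt : Prop := ∀ β : ℝ, IsIntegral ℤ β → ∀ F : Finset ℝ,
  (∀ x ∈ F, x ∈ IntermediateField.adjoin ℚ ({β} : Set ℝ)) →
  ∃ N : ℕ, 0 < N ∧ ∀ x ∈ F, (N : ℝ) * x ∈ Algebra.adjoin ℤ ({β} : Set ℝ)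

/-! ## The coarse orbit -/

/-- Coarse orbit of 1 starting at block j: x ↦ b x - ⌊b x / c⌋ c. -/
noncomputable def orb (b : ℕ → ℝ) (c : ℝ) (j : ℕ) : ℕ → ℝ
  | 0 => 1
  | n + 1 => b (j + n) * orb b c j n - (⌊b (j + n) * orb b c j n / c⌋ : ℝ) * c

/-- **Row OA** (medium-long). In every parameter interval some orbit of 1 falls into the hole
[1, c). Proof by contradiction: assume orb b c j n < 1 for all c in (s,t) and all n >= 1. Always
0 <= orb b c j n. Claim: for every n there are reals A, B with B >= m^(n-1) for n >= 1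
(say B >= m^n - B' ... simply: B = 0 for n = 0 and B_{n+1} = b B_n + a with integer a >= 0, a >= 1 for
n = 0) and orb b c j n = A - B c for all c in (s,t). Step: φ(c) = b (A - B c) / c is continuous on (s,t),
and ⌊φ⌋ is constant there: if ⌊φ(c1)⌋ < M = ⌊φ(c2)⌋ (M integer), then φ(c1) < M <= φ(c2); by the
intermediate value theorem φ takes on [[c1,c2]] a value v with max(φ(c1), M - 1 + 1/s) < v < M
(1/s <= 1; choose v < M close to M; if s = 1 then 1/s = 1, so use a point c' with s < c' <= min(c1,c2) in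
place of s: 1/c' < 1), say v = φ(c4), c4 >= min(c1,c2) >= c'; then fract v >= 1/c' >= 1/c4, so
orb b c4 j (n+1) = c4 * fract (φ c4) >= 1, contradiction. For n = 0: φ(c) = b/c > 1 as c < t <= m <= b,
so a >= 1. Finally take c1 < c2 in (s,t): B_n (c2 - c1) = orb(c1) - orb(c2) < 1 although
B_n >= m^(n-1) tends to infinity. -/
def OA_stmt : Prop := ∀ (b : ℕ → ℝ) (m : ℝ), 1 < m → (∀ n, m ≤ b n) → ∀ (j : ℕ) (s t : ℝ),
  1 ≤ s → s < t → t ≤ m → ∃ c : ℝ, s < c ∧ c < t ∧ ∃ n : ℕ, 1 ≤ n ∧ 1 ≤ orb b c j n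

/-- **Row OB** (medium). Left semicontinuity.
Proof: by induction on n there are δ > 0 (δ < c₀ / 2) and reals A, B >= 0 with
orb b c j n = A - B c for all c in (c₀ - δ, c₀] (and then orb b c₀ j n <= orb b c j n).
n = 0: A = 1, B = 0. Step: φ(c) = b (A - B c)/c = b (A/c - B) is continuous and antitone in c > 0
(A >= 0 because A = orb + B c₀ >= 0), a := ⌊φ(c₀)⌋ >= 0 (orb >= 0), so a <= φ(c₀) <= φ(c) < a + 1 for
c in a left neighbourhood, the floor is a there: new A = b A, new B = b B + a. -/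
def OB_stmt : Prop := ∀ (b : ℕ → ℝ), (∀ n, 1 < b n) → ∀ (j : ℕ) (c₀ : ℝ), 1 < c₀ → ∀ n : ℕ,
  ∃ δ : ℝ, 0 < δ ∧ ∀ c : ℝ, c₀ - δ < c → c ≤ c₀ → orb b c₀ j n ≤ orb b c j n

/-- **Row OC** (short-medium). `theorem OC (hOA : OA_stmt) (hOB : OB_stmt) : OC_stmt`.
Proof: by induction on p: for every 1 <= s < t <= m there are s <= s' < t' <= t such that every c in
(s',t') has, for every j < p, some n >= 1 with 1 <= orb b c j n. Step: apply OA in (s',t') to j = p,
get c₀, then OB: the interval (max(s', c₀ - δ), c₀) works. Start with s = 1, t = min u m, and take a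
rational number in the last interval. -/
def OC_stmt : Prop := ∀ (b : ℕ → ℝ) (m : ℝ), 1 < m → (∀ n, m ≤ b n) → ∀ (p : ℕ) (u : ℝ), 1 < u →
  ∃ c : ℚ, (1 : ℝ) < c ∧ (c : ℝ) < u ∧ (c : ℝ) < m ∧
    ∀ j : ℕ, j < p → ∃ n : ℕ, 1 ≤ n ∧ 1 ≤ orb b (c : ℝ) j n

/-! ## Chains -/

/-- **Row CH** (medium). Fill the gaps of a finite set by elements of E.
Proof: induction on the number of elements of F (or strong induction: remove c = max F; the next
largest element c' of F; chain for F.erase c from c' to 1 by induction; between c and c' insert the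
partial sums: l = [e1,...,es] with sum c - c' > 0 gives c, c - e1, c - e1 - e2, ..., c'). If c' = 1 is
the smallest element then T = the partial differences ending with 1. Partial sums lemma:
for l nonempty with elements in E there is a chain list from x to x - l.sum. -/
def CH_stmt : Prop := ∀ (E : Set ℝ) (F : Finset ℝ) (c : ℝ), 1 < c → (∀ e ∈ E, 0 < e) →
  (1 : ℝ) ∈ F → c ∈ F → (∀ x ∈ F, 1 ≤ x ∧ x ≤ c) →
  (∀ u ∈ F, ∀ v ∈ F, u < v → ∃ l : List ℝ, (∀ e ∈ l, e ∈ E) ∧ l.sum = v - u) →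
  ∃ T : List ℝ, T ≠ [] ∧ (c :: T).getLast (by simp) = 1 ∧
    List.IsChain (fun x y => x - y ∈ E) (c :: T) ∧ ∀ x ∈ F, x ≠ c → x ∈ T

/-! ## Runs -/

/-- Run the greedy steps with the factors of a list. -/
noncomputable def run : List ℝ → ℝ → ℝ
  | [], r => r
  | a :: L, r => run L (a * r - (⌊a * r⌋ : ℝ))

/-- Successive ratios x_0/x_1, x_1/x_2, ... of a list. -/
noncomputable def ratios : List ℝ → List ℝ
  | x :: y :: l => (x / y) :: ratios (y :: l)
  | _ => []

/-- The block replacing the entry b: first factor b/c, then the ratios of the chain c :: T. -/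
noncomputable def blk (b c : ℝ) (T : List ℝ) : List ℝ := (b / c) :: ratios (c :: T)

/-- A strictly decreasing list of reals ending with 1. -/
def Dec (l : List ℝ) : Prop := List.IsChain (fun x y => y < x) l ∧ ∃ h : l ≠ [], l.getLast h = 1

/-- **Row RL** (short). No digit below 1. Induction on T: x :: y :: l: (x/y)(w/x) = w/y in [0,1). -/
def RL_stmt : Prop := ∀ (T : List ℝ) (x : ℝ), Dec (x :: T) → ∀ w : ℝ, 0 ≤ w → w < 1 →
  run (ratios (x :: T)) (w / x) = w

/-- **Row RH** (short). A state in the chain is killed. Induction on T: x :: y :: l, if w = y then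
(x/y)(w/x) = 1, remainder 0, and run L 0 = 0; if w in l then w < y and the digit is 0. -/
def RH_stmt : Prop := ∀ (T : List ℝ) (x : ℝ), Dec (x :: T) → ∀ w ∈ T,
  run (ratios (x :: T)) (w / x) = 0

/-- **Row RS** (short). `theorem RS (hRL : RL_stmt) : RS_stmt`. Starting with 1 inside a chain: the
digit is 1 as 1 < x/y < 2, remainder (x-y)/y with 0 <= x - y < 1, then RL. -/
def RS_stmt : Prop := ∀ (T : List ℝ) (x y : ℝ), x < 2 → Dec (x :: y :: T) →
  run (ratios (x :: y :: T)) 1 = x - y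

/-- **Row BW** (short). `theorem BW (hRL : RL_stmt) (hRH : RH_stmt) : BW_stmt`. One block:
(b/c) x - ⌊(b/c) x⌋ = w / c. -/
def BW_stmt : Prop := ∀ (T : List ℝ) (b c x : ℝ), 0 < c → 0 ≤ b * x → Dec (c :: T) →
  let w : ℝ := b * x - (⌊b * x / c⌋ : ℝ) * c
  (w < 1 → run (blk b c T) x = w) ∧ (w ∈ T → run (blk b c T) x = 0)

/-- **Row CAT** (medium). Infinite concatenation of nonempty lists, periodic if the lists are.
Proof: κ j = sum of the lengths of Bl i, i < j; κ is strictly monotone with κ 0 = 0, so every n is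
κ j + i with unique j and i < length (Bl j) (`Nat.findGreatest` or induction); α n = (Bl j)[i]. -/
def CAT_stmt : Prop := ∀ (Bl : ℕ → List ℝ) (p : ℕ), (∀ j, Bl j ≠ []) → (∀ j, Bl (j + p) = Bl j) →
  ∃ (κ : ℕ → ℕ) (α : ℕ → ℝ), κ 0 = 0 ∧ (∀ j, κ (j + 1) = κ j + (Bl j).length) ∧
    (∀ j i, ∀ h : i < (Bl j).length, α (κ j + i) = (Bl j)[i]) ∧
    (∀ n, α (n + κ p) = α n) ∧ (∀ n, ∃ j i, i < (Bl j).length ∧ n = κ j + i)

/-- **Row RC** (short-medium). Runs along a sequence: if the entries of L are α(s), α(s+1), ..., then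
|L| steps of the recursion are `run L`. Induction on L (generalizing n and s). -/
def RC_stmt : Prop := ∀ (α : ℕ → ℝ) (i : ℕ) (r : ℕ → ℝ),
  (∀ n, r (n + 1) = α (n + i) * r n - (⌊α (n + i) * r n⌋ : ℝ)) →
  ∀ (L : List ℝ) (n : ℕ), (∀ k, ∀ h : k < L.length, L[k] = α (n + k + i)) →
    r (n + L.length) = run L (r n)

/-- **Row RP** (short-medium). Products and members of a block.
(1) product of blk is b (c :: T ends with 1), (2) product of the tail `ratios (c :: T)` is c,
(3) all members of `ratios (c :: T)` are > 1, (4) members of `ratios (c :: T)` lie in any subfield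
containing c and T. (5) suffixes: if 0 < k < length (blk b c T) then
(blk b c T).drop k = ratios (x :: y :: T') with x :: y :: T' a suffix of c :: T. -/
def RP_stmt : Prop := ∀ (T : List ℝ) (b c : ℝ), Dec (c :: T) →
  (blk b c T).prod = b ∧ (ratios (c :: T)).prod = c ∧ (∀ a ∈ ratios (c :: T), 1 < a) ∧
  (∀ K : IntermediateField ℚ ℝ, c ∈ K → (∀ x ∈ T, x ∈ K) → ∀ a ∈ ratios (c :: T), a ∈ K) ∧
  (∀ k : ℕ, 0 < k → k < (blk b c T).length → ∃ (x y : ℝ) (T' : List ℝ),
    (x :: y :: T') <:+ (c :: T) ∧ (blk b c T).drop k = ratios (x :: y :: T'))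

/-- The main theorem. -/
def MAIN_stmt : Prop := ∀ β : ℝ, IsPerron β → ∀ (p : ℕ) (b : ℕ → ℝ), 0 < p →
  (∀ n, b (n + p) = b n) → (∀ n, 1 < b n) → β = ∏ i ∈ Finset.range p, b i →
  (∀ n, b n ∈ IntermediateField.adjoin ℚ ({β} : Set ℝ)) → ∀ ε : ℝ, 0 < ε →
  ∃ (κ : ℕ → ℕ) (α : ℕ → ℝ), κ 0 = 0 ∧ StrictMono κ ∧ (∀ n, α (n + κ p) = α n) ∧
    (∀ n, 1 < α n) ∧ (∀ n, α n ∈ IntermediateField.adjoin ℚ ({β} : Set ℝ)) ∧
    (∀ j, j < p → ∏ i ∈ Finset.Ico (κ j) (κ (j + 1)), α i = b j ∧
      ∏ i ∈ Finset.Ico (κ j + 1) (κ (j + 1)), α i < 1 + ε) ∧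
    β = ∏ i ∈ Finset.range (κ p), α i ∧
    ∀ (i : ℕ) (r : ℕ → ℝ), r 0 = 1 →
      (∀ n, r (n + 1) = α (n + i) * r n - (⌊α (n + i) * r n⌋ : ℝ)) →
      ∃ N : ℕ, ∀ n : ℕ, N ≤ n → r n = 0 ∧ ⌊α (n + i) * r n⌋ = 0

end Pool.Agent.PX
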