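import Pool.Agent.helper93.PX.NP
import Pool.Agent.helper18.PX.CF
import Pool.Agent.helper78.PX.SG
import Pool.Agent.helper37.PX.DEN
import Pool.Agent.helper39.PX.OA
import Pool.Agent.helper90.PX.OB
import Pool.Agent.helper16.PX.OC
import Pool.Agent.helper3.PX.CH
import Pool.Agent.helper11.PX.RL
import Pool.Agent.helper25.PX.RH
import Pool.Agent.helper25.PX.RS
import Pool.Agent.helper25.PX.BW
import Pool.Agent.helper72.PX.CAT
import Pool.Agent.helper77.PX.RC
import Pool.Agent.helper83.PX.RP

set_option autoImplicit false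

namespace Pool.Agent.PX

/-- All rows together. -/
theorem ALL_main : MAIN_stmt :=
  MAIN (SG CF) DEN (OC OA OB) CH (RS RL) (BW RL RH) CAT RC RP

end Pool.Agent.PX
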