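import Pool.Agent.helper93.PX.Main

set_option autoImplicit false

namespace Pool.Agent.PX

open Polynomial

/-- remainders of the greedy expansion of 1 for shift i -/
noncomputable def rmd (α : ℕ → ℝ) (i : ℕ) : ℕ → ℝ
  | 0 => 1
  | n + 1 => α (n + i) * rmd α i n - (⌊α (n + i) * rmd α i n⌋ : ℝ)

theorem CONV_range (α : ℕ → ℝ) (i n : ℕ) : 0 ≤ rmd α i n ∧ rmd α i n ≤ 1 := by
  cases n with
  | zero => simp [rmd]
  | succ n =>
    simp only [rmd]
    exact ⟨sub_nonneg.2 (Int.floor_le _), by linarith [Int.lt_floor_add_one (α (n + i) * rmd α i n)]⟩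

theorem CONV_per (α : ℕ → ℝ) (p : ℕ) (hper : ∀ n, α (n + p) = α n) (i n : ℕ) :
    rmd α (i + p) n = rmd α i n := by
  induction n with
  | zero => rfl
  | succ n ih =>
    simp only [rmd, ih]
    rw [show n + (i + p) = (n + i) + p by ring, hper]

theorem CONV_mod (α : ℕ → ℝ) (p : ℕ) (hper : ∀ n, α (n + p) = α n) (i n : ℕ) :
    rmd α i n = rmd α (i % p) n :=
  MAIN_per_mod (fun i => rmd α i n) p (fun i => CONV_per α p hper i n) i

/-- The remainders of an ultimately periodic expansion form a finite set. -/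
theorem CONV_fin (α : ℕ → ℝ) (p : ℕ) (hp : 0 < p) (hper : ∀ n, α (n + p) = α n)
    (h1 : ∀ n, 1 < α n) (i : ℕ)
    (h : ∃ N T : ℕ, 0 < T ∧ ∀ n : ℕ, N ≤ n →
      ⌊α (n + T + i) * rmd α i (n + T)⌋ = ⌊α (n + i) * rmd α i n⌋) :
    (Set.range (rmd α i)).Finite := by
  obtain ⟨N, T, hT, hd⟩ := h
  -- common period T * p
  have hd' : ∀ k n : ℕ, N ≤ n →
      ⌊α (n + T * k + i) * rmd α i (n + T * k)⌋ = ⌊α (n + i) * rmd α i n⌋ := by
    intro k
    induction k with
    | zero => intro n _; simp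
    | succ k ih =>
      intro n hn
      rw [show n + T * (k + 1) = (n + T * k) + T by ring, hd _ (by omega), ih n hn]
  obtain ⟨i₀, hi₀, hmin₀⟩ := Finset.exists_min_image (Finset.range p) α ⟨0, by simpa using hp⟩
  have hμ : ∀ n, α i₀ ≤ α n := by
    intro n
    rw [MAIN_per_mod α p hper n]
    exact hmin₀ _ (Finset.mem_range.2 (Nat.mod_lt _ hp))
  have hμ1 := h1 i₀
  set T' := T * p with hT'
  have hαT : ∀ n, α (n + T') = α n := by
    intro n
    rw [MAIN_per_mod α p hper (n + T'), MAIN_per_mod α p hper n, hT']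
    simp [Nat.add_mod]
  have hstep : ∀ n, N ≤ n → rmd α i (n + T' + 1) - rmd α i (n + 1)
      = α (n + i) * (rmd α i (n + T') - rmd α i n) := by
    intro n hn
    simp only [rmd]
    rw [hd' p n hn, show n + T' + i = n + i + T' by ring, hαT]
    ring
  have hgrow : ∀ n, N ≤ n → ∀ k : ℕ,
      α i₀ ^ k * |rmd α i (n + T') - rmd α i n| ≤ |rmd α i (n + k + T') - rmd α i (n + k)| := by
    intro n hn k
    induction k with
    | zero => simp
    | succ k ih =>
      have := hstep (n + k) (by omega)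
      rw [show n + (k + 1) + T' = n + k + T' + 1 by ring, show n + (k + 1) = n + k + 1 by ring,
        this, abs_mul, pow_succ]
      have h2 : |α (n + k + i)| = α (n + k + i) := abs_of_pos (by linarith [h1 (n + k + i)])
      rw [h2]
      have h3 := hμ (n + k + i)
      have h4 := abs_nonneg (rmd α i (n + k + T') - rmd α i (n + k))
      have h5 := abs_nonneg (rmd α i (n + T') - rmd α i n)
      calc α i₀ ^ k * α i₀ * |rmd α i (n + T') - rmd α i n|
          = α i₀ * (α i₀ ^ k * |rmd α i (n + T') - rmd α i n|) := by ring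
        _ ≤ α (n + k + i) * |rmd α i (n + k + T') - rmd α i (n + k)| := by
          refine mul_le_mul h3 ih (by positivity) (by linarith [h1 (n + k + i)])
  have heq : ∀ n, N ≤ n → rmd α i (n + T') = rmd α i n := by
    intro n hn
    by_contra hne
    have hpos : 0 < |rmd α i (n + T') - rmd α i n| := abs_pos.2 (sub_ne_zero.2 hne)
    obtain ⟨k, hk⟩ := pow_unbounded_of_one_lt (1 / |rmd α i (n + T') - rmd α i n|) hμ1
    have h2 := hgrow n hn k
    have h3 : |rmd α i (n + k + T') - rmd α i (n + k)| ≤ 1 := by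
      have ha := CONV_range α i (n + k + T')
      have hb := CONV_range α i (n + k)
      rw [abs_le]
      constructor <;> linarith [ha.1, ha.2, hb.1, hb.2]
    rw [div_lt_iff₀ hpos] at hk
    linarith
  have hT'0 : 0 < T' := Nat.mul_pos hT hp
  refine Set.Finite.subset (Set.finite_range (fun n : Fin (N + T') => rmd α i n)) ?_
  rintro _ ⟨n, rfl⟩
  have : ∀ n, ∃ m, m < N + T' ∧ rmd α i m = rmd α i n := by
    intro n
    induction n using Nat.strong_induction_on with
    | _ n ih =>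
      by_cases hn : n < N + T'
      · exact ⟨n, hn, rfl⟩
      · obtain ⟨m, hm, hme⟩ := ih (n - T') (by omega)
        refine ⟨m, hm, ?_⟩
        rw [hme, ← heq (n - T') (by omega)]
        congr 1
        omega
  obtain ⟨m, hm, hme⟩ := this n
  exact ⟨⟨m, hm⟩, hme⟩

/-- The product of a Parry alternate base is an algebraic integer. -/
theorem CONV_int (α : ℕ → ℝ) (p : ℕ) (hp : 0 < p) (hper : ∀ n, α (n + p) = α n)
    (hfin : ∀ i, (Set.range (rmd α i)).Finite) (β : ℝ)
    (hprod : β = ∏ i ∈ Finset.range p, α i) : IsIntegral ℤ β := by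
  set S : ℕ → Set ℝ := fun l => {x | ∃ j n, (j + n) % p = l % p ∧ x = rmd α j n} with hS
  have hSfin : ∀ l, (S l).Finite := by
    intro l
    refine Set.Finite.subset (Set.Finite.biUnion (Set.finite_lt_nat p)
      (fun j _ => hfin j)) ?_
    rintro x ⟨j, n, _, rfl⟩
    simp only [Set.mem_iUnion]
    exact ⟨j % p, Nat.mod_lt _ hp, n, (CONV_mod α p hper j n).symm⟩
  have h1S : ∀ l, (1 : ℝ) ∈ Submodule.span ℤ (S l) := fun l =>
    Submodule.subset_span ⟨l, 0, by simp, rfl⟩
  have hmul : ∀ l, ∀ x ∈ Submodule.span ℤ (S l), α l * x ∈ Submodule.span ℤ (S (l + 1)) := by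
    intro l x hx
    induction hx using Submodule.span_induction with
    | mem x hx =>
      obtain ⟨j, n, hjn, rfl⟩ := hx
      have hα : α l = α (n + j) := by
        rw [MAIN_per_mod α p hper l, MAIN_per_mod α p hper (n + j), ← hjn, add_comm]
      have e : α l * rmd α j n = rmd α j (n + 1) + ⌊α (n + j) * rmd α j n⌋ • (1 : ℝ) := by
        rw [hα]
        simp [rmd]
      rw [e]
      refine Submodule.add_mem _ (Submodule.subset_span ⟨j, n + 1, ?_, rfl⟩)
        (Submodule.smul_mem _ _ (h1S (l + 1)))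
      rw [show j + (n + 1) = (j + n) + 1 by ring, Nat.add_mod, hjn, ← Nat.add_mod]
    | zero => simp
    | add x y _ _ hx hy => rw [mul_add]; exact Submodule.add_mem _ hx hy
    | smul a x _ hx => rw [mul_smul_comm]; exact Submodule.smul_mem _ _ hx
  have hk : ∀ k, ∀ x ∈ Submodule.span ℤ (S 0), (∏ i ∈ Finset.range k, α i) * x ∈
      Submodule.span ℤ (S k) := by
    intro k
    induction k with
    | zero => intro x hx; simpa using hx
    | succ k ih =>
      intro x hx
      rw [Finset.prod_range_succ, mul_comm (∏ i ∈ Finset.range k, α i), mul_assoc]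
      exact hmul k _ (ih x hx)
  have hSp : S p = S 0 := by simp [hS]
  refine isIntegral_of_smul_mem_submodule (N := Submodule.span ℤ (S 0)) ?_ ?_ β ?_
  · intro hbot
    have := h1S 0
    rw [hbot] at this
    simp at this
  · exact Submodule.fg_span (hSfin 0)
  · intro n hn
    have := hk p n hn
    rw [hSp, ← hprod] at this
    simpa using this

/-- Expansion of c_i in a field: for any ring hom. -/
theorem CONV_expand {F : Type*} [Field F] (a : ℕ → F) (ha : ∀ n, a n ≠ 0) (d : ℕ → ℤ)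
    (ρ : ℕ → F) (i : ℕ) (hρ0 : ρ 0 = 1)
    (hρ : ∀ n, ρ (n + 1) = a (n + i) * ρ n - (d n : F)) (N : ℕ) :
    (∏ k ∈ Finset.range i, (a k)⁻¹) = (∑ n ∈ Finset.range N, (d n : F) *
      ∏ k ∈ Finset.range (i + n + 1), (a k)⁻¹) + ρ N * ∏ k ∈ Finset.range (i + N), (a k)⁻¹ := by
  induction N with
  | zero => simp [hρ0]
  | succ N ih =>
    rw [ih, Finset.sum_range_succ, hρ, show i + (N + 1) = i + N + 1 by ring,
      Finset.prod_range_succ _ (i + N)]
    have := ha (i + N)
    rw [show N + i = i + N by ring]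
    field_simp
    ring

/-- One step of the equality discussion. -/
theorem CONV_step (C : ℕ → ℝ) (s : ℕ → ℂ) (hC : ∀ n, 0 < C n) (d : ℕ → ℤ) (ρ : ℕ → ℝ)
    (σρ : ℕ → ℂ) (B : ℝ) (i : ℕ) (u : ℂ) (hd : ∀ n, 0 ≤ d n) (hd0 : 1 ≤ d 0)
    (hρ : ∀ n, 0 ≤ ρ n) (hB : ∀ n, ‖σρ n‖ ≤ B)
    (hCe : ∀ N, C i = (∑ n ∈ Finset.range N, (d n : ℝ) * C (i + n + 1)) + ρ N * C (i + N))
    (hse : ∀ N, s i = (∑ n ∈ Finset.range N, (d n : ℂ) * s (i + n + 1)) + σρ N * s (i + N))
    (hu : s i = u * C i) (hM : ∀ n, ‖s n‖ ≤ ‖u‖ * C n)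
    (hlim : ∀ ε : ℝ, 0 < ε → ∃ N, 1 ≤ N ∧ C (i + N) < ε) :
    s (i + 1) = u * C (i + 1) := by
  have hB0 : 0 ≤ B := le_trans (norm_nonneg _) (hB 0)
  -- the defect
  set D : ℕ → ℝ := fun n => ‖u‖ ^ 2 * C n - ((starRingEnd ℂ) u * s n).re with hD
  have hre : ∀ n, ((starRingEnd ℂ) u * s n).re ≤ ‖u‖ * ‖s n‖ := by
    intro n
    refine le_trans (Complex.re_le_norm _) ?_
    rw [norm_mul, Complex.norm_conj]
  have hD0 : ∀ n, 0 ≤ D n := by
    intro n
    have h1 := hre n
    have h2 := hM n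
    have h3 := norm_nonneg u
    simp only [hD]
    nlinarith
  have hDi : D i = 0 := by
    simp only [hD]
    rw [hu, ← mul_assoc, Complex.conj_mul', ← Complex.ofReal_pow, ← Complex.ofReal_mul,
      Complex.ofReal_re]
    ring
  have hsum : ∀ N, (∑ n ∈ Finset.range N, (d n : ℝ) * D (i + n + 1)) +
      (ρ N * (‖u‖ ^ 2 * C (i + N)) - ((starRingEnd ℂ) u * (σρ N * s (i + N))).re) = 0 := by
    intro N
    have e1 := hCe N
    have e2 := congrArg (fun x => ((starRingEnd ℂ) u * x).re) (hse N)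
    simp only [mul_add, Complex.add_re, Finset.mul_sum, Complex.re_sum] at e2
    have e3 : ∀ n, ((starRingEnd ℂ) u * ((d n : ℂ) * s (i + n + 1))).re =
        (d n : ℝ) * ((starRingEnd ℂ) u * s (i + n + 1)).re := by
      intro n
      rw [mul_left_comm, ← Complex.ofReal_intCast, Complex.re_ofReal_mul]
    simp only [e3] at e2
    have e4 : ∑ n ∈ Finset.range N, (d n : ℝ) * D (i + n + 1) =
        ‖u‖ ^ 2 * (∑ n ∈ Finset.range N, (d n : ℝ) * C (i + n + 1)) -
        ∑ n ∈ Finset.range N, (d n : ℝ) * ((starRingEnd ℂ) u * s (i + n + 1)).re := by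
      rw [Finset.mul_sum, ← Finset.sum_sub_distrib]
      refine Finset.sum_congr rfl fun n _ => ?_
      simp only [hD]
      ring
    have e5 : D i = ‖u‖ ^ 2 * C i - ((starRingEnd ℂ) u * s i).re := rfl
    rw [hDi] at e5
    rw [e4]
    have e6 : ‖u‖ ^ 2 * C i = ‖u‖ ^ 2 * ((∑ n ∈ Finset.range N, (d n : ℝ) * C (i + n + 1)) +
      ρ N * C (i + N)) := by rw [← e1]
    linarith
  have hle : ∀ N, 1 ≤ N → D (i + 1) ≤ ‖u‖ * (B * (‖u‖ * C (i + N))) := by
    intro N hN
    have h1 := hsum N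
    have h2 : D (i + 1) ≤ ∑ n ∈ Finset.range N, (d n : ℝ) * D (i + n + 1) := by
      have h3 : (d 0 : ℝ) * D (i + 0 + 1) ≤ ∑ n ∈ Finset.range N, (d n : ℝ) * D (i + n + 1) :=
        Finset.single_le_sum (f := fun n => (d n : ℝ) * D (i + n + 1))
          (fun n _ => mul_nonneg (by exact_mod_cast hd n) (hD0 _))
          (Finset.mem_range.2 (by omega))
      have h4 : (1 : ℝ) ≤ d 0 := by exact_mod_cast hd0
      have h5 := hD0 (i + 1)
      simp only [add_zero] at h3
      nlinarith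
    have h6 : ((starRingEnd ℂ) u * (σρ N * s (i + N))).re ≤ ‖u‖ * (B * (‖u‖ * C (i + N))) := by
      refine le_trans (Complex.re_le_norm _) ?_
      rw [norm_mul, norm_mul, Complex.norm_conj]
      exact mul_le_mul_of_nonneg_left
        (mul_le_mul (hB N) (hM _) (norm_nonneg _) hB0) (norm_nonneg _)
    have h7 : 0 ≤ ρ N * (‖u‖ ^ 2 * C (i + N)) := by
      have := hC (i + N)
      have := hρ N
      positivity
    linarith
  have hDz : D (i + 1) ≤ 0 := by
    by_contra hcon
    rw [not_le] at hcon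
    have hK : 0 < ‖u‖ * (B * ‖u‖) + 1 := by positivity
    obtain ⟨N, hN1, hN⟩ := hlim (D (i + 1) / (‖u‖ * (B * ‖u‖) + 1)) (by positivity)
    have h1 := hle N hN1
    rw [lt_div_iff₀ hK] at hN
    have h2 := hC (i + N)
    nlinarith
  have hDe : D (i + 1) = 0 := le_antisymm hDz (hD0 _)
  -- equality in Cauchy Schwarz
  have hn : ‖s (i + 1) - u * C (i + 1)‖ ^ 2 ≤ 0 := by
    have e1 : ‖s (i + 1) - u * C (i + 1)‖ ^ 2 = ‖s (i + 1)‖ ^ 2 -
        2 * C (i + 1) * ((starRingEnd ℂ) u * s (i + 1)).re + ‖u‖ ^ 2 * C (i + 1) ^ 2 := by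
      rw [← Complex.normSq_eq_norm_sq, ← Complex.normSq_eq_norm_sq, ← Complex.normSq_eq_norm_sq]
      simp only [Complex.normSq_apply, Complex.sub_re, Complex.sub_im, Complex.mul_re,
        Complex.mul_im, Complex.ofReal_re, Complex.ofReal_im, Complex.conj_re, Complex.conj_im]
      ring
    rw [e1]
    have h1 : ((starRingEnd ℂ) u * s (i + 1)).re = ‖u‖ ^ 2 * C (i + 1) := by
      have : D (i + 1) = ‖u‖ ^ 2 * C (i + 1) - ((starRingEnd ℂ) u * s (i + 1)).re := rfl
      linarith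
    rw [h1]
    have h2 := hM (i + 1)
    have h3 := norm_nonneg (s (i + 1))
    have h4 : ‖s (i + 1)‖ ^ 2 ≤ (‖u‖ * C (i + 1)) ^ 2 := by
      exact pow_le_pow_left₀ h3 h2 2
    nlinarith
  have hn2 : ‖s (i + 1) - u * C (i + 1)‖ = 0 := by
    have := sq_nonneg ‖s (i + 1) - u * C (i + 1)‖
    exact pow_eq_zero_iff (two_ne_zero) |>.1 (le_antisymm hn this)
  exact sub_eq_zero.1 (norm_eq_zero.1 hn2)

theorem CONV_hom (β : ℝ) (hβ : IsIntegral ℤ β) (z : ℂ)
    (hz : Polynomial.aeval z (minpoly ℤ β) = 0) :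
    ∃ σ : IntermediateField.adjoin ℚ ({β} : Set ℝ) →ₐ[ℚ] ℂ,
      σ ⟨β, IntermediateField.mem_adjoin_simple_self ℚ β⟩ = z := by
  have hβQ : IsIntegral ℚ β := hβ.tower_top
  have hmin : minpoly ℚ β = (minpoly ℤ β).map (algebraMap ℤ ℚ) :=
    minpoly.isIntegrallyClosed_eq_field_fractions' ℚ hβ
  have hroot : z ∈ (minpoly ℚ β).aroots ℂ := by
    rw [Polynomial.mem_aroots]
    refine ⟨minpoly.ne_zero hβQ, ?_⟩
    rw [hmin, Polynomial.aeval_map_algebraMap]
    exact hz
  refine ⟨(IntermediateField.algHomAdjoinIntegralEquiv ℚ hβQ).symm ⟨z, hroot⟩, ?_⟩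
  exact IntermediateField.algHomAdjoinIntegralEquiv_symm_apply_gen ℚ hβQ ⟨z, hroot⟩

/-- Conjugates of the product of a Parry alternate base are smaller in modulus. -/
theorem CONV_conj (α : ℕ → ℝ) (p : ℕ) (hp : 0 < p) (hper : ∀ n, α (n + p) = α n)
    (h1 : ∀ n, 1 < α n) (β : ℝ) (hβ1 : 1 < β) (hβ : IsIntegral ℤ β)
    (hprod : β = ∏ i ∈ Finset.range p, α i)
    (hK : ∀ n, α n ∈ IntermediateField.adjoin ℚ ({β} : Set ℝ))
    (hfin : ∀ i, (Set.range (rmd α i)).Finite) (z : ℂ)
    (hz : Polynomial.aeval z (minpoly ℤ β) = 0) (hzβ : z ≠ (β : ℂ)) : ‖z‖ < β := by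
  by_contra hcon
  rw [not_lt] at hcon
  set K := IntermediateField.adjoin ℚ ({β} : Set ℝ) with hKdef
  obtain ⟨σ, hσ⟩ : ∃ σ : K →ₐ[ℚ] ℂ,
      σ ⟨β, IntermediateField.mem_adjoin_simple_self ℚ β⟩ = z := CONV_hom β hβ z hz
  have hβ0 : 0 < β := by linarith
  set a : ℕ → K := fun n => ⟨α n, hK n⟩ with ha
  have ha0 : ∀ n, a n ≠ 0 := by
    intro n h0
    have h2 : (a n : ℝ) = 0 := by rw [h0]; rfl
    have := h1 n
    simp only [ha] at h2
    linarith
  have hβK : (⟨β, IntermediateField.mem_adjoin_simple_self ℚ β⟩ : K) =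
      ∏ i ∈ Finset.range p, a i := by
    apply Subtype.ext
    exact hprod.trans (map_prod K.val a (Finset.range p)).symm
  -- real and complex scale
  set C : ℕ → ℝ := fun n => ∏ k ∈ Finset.range n, (α k)⁻¹ with hC
  set s : ℕ → ℂ := fun n => ∏ k ∈ Finset.range n, (σ (a k))⁻¹ with hs
  have hC0 : ∀ n, 0 < C n := fun n => Finset.prod_pos fun k _ => inv_pos.2 (by linarith [h1 k])
  have hσa : ∀ n, σ (a n) ≠ 0 := fun n => (map_ne_zero σ).2 (ha0 n)
  have hs0 : ∀ n, s n ≠ 0 := fun n => Finset.prod_ne_zero_iff.2 fun k _ => inv_ne_zero (hσa k)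
  have haper : ∀ n, a (n + p) = a n := fun n => Subtype.ext (hper n)
  have hz0 : z ≠ 0 := by
    intro h0
    rw [h0, norm_zero] at hcon
    linarith
  have hzp : z = ∏ i ∈ Finset.range p, σ (a i) := by
    rw [← hσ, hβK, map_prod]
  have hCp : ∀ n, C (n + p) = C n * β⁻¹ := by
    intro n
    simp only [hC]
    rw [add_comm n p, Finset.prod_range_add, mul_comm, hprod, ← Finset.prod_inv_distrib]
    congr 1
    refine Finset.prod_congr rfl fun k _ => ?_
    rw [add_comm p k, hper]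
  have hsp : ∀ n, s (n + p) = s n * z⁻¹ := by
    intro n
    simp only [hs]
    rw [add_comm n p, Finset.prod_range_add, mul_comm, hzp, ← Finset.prod_inv_distrib]
    congr 1
    refine Finset.prod_congr rfl fun k _ => ?_
    rw [add_comm p k, haper]
  -- the remainders in K
  have hrK : ∀ i n, rmd α i n ∈ K := by
    intro i n
    induction n with
    | zero => exact K.one_mem
    | succ n ih =>
      simp only [rmd]
      exact K.sub_mem (K.mul_mem (hK _) ih) (intCast_mem K _)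
  set ρ : ℕ → ℕ → K := fun i n => ⟨rmd α i n, hrK i n⟩ with hρ
  set d : ℕ → ℕ → ℤ := fun i n => ⌊α (n + i) * rmd α i n⌋ with hd
  have hρs : ∀ i n, ρ i (n + 1) = a (n + i) * ρ i n - (d i n : K) := by
    intro i n
    apply Subtype.ext
    simp only [hρ, ha, hd, rmd]
    push_cast
    rfl
  have hρ0 : ∀ i, ρ i 0 = 1 := fun i => Subtype.ext rfl
  have hd0 : ∀ i n, 0 ≤ d i n := by
    intro i n
    apply Int.floor_nonneg.2
    have := h1 (n + i)
    have := (CONV_range α i n).1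
    positivity
  have hd1 : ∀ i, 1 ≤ d i 0 := by
    intro i
    simp only [hd, rmd]
    rw [Int.le_floor]
    have := h1 (0 + i)
    push_cast
    linarith
  have hCe : ∀ i N, C i = (∑ n ∈ Finset.range N, (d i n : ℝ) * C (i + n + 1)) +
      rmd α i N * C (i + N) := by
    intro i N
    exact CONV_expand α (fun n => by linarith [h1 n]) (d i) (rmd α i) i rfl (fun n => rfl) N
  have hse : ∀ i N, s i = (∑ n ∈ Finset.range N, (d i n : ℂ) * s (i + n + 1)) +
      σ (ρ i N) * s (i + N) := by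
    intro i N
    refine CONV_expand (fun n => σ (a n)) hσa (d i) (fun n => σ (ρ i n)) i ?_ ?_ N
    · simp only [hρ0, map_one]
    · intro n
      simp only [hρs, map_sub, map_mul, map_intCast]
  -- bound for the conjugates of the remainders
  have hBd : ∀ i, ∃ B : ℝ, ∀ n, ‖σ (ρ i n)‖ ≤ B := by
    intro i
    have hf : (Set.range (fun n => ‖σ (ρ i n)‖)).Finite := by
      have h2 : (Set.range (ρ i)).Finite := by
        have h3 : (Set.range (fun n => (ρ i n : ℝ))).Finite := hfin i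
        have h4 : Set.range (fun n => (ρ i n : ℝ)) = (fun x : K => (x : ℝ)) '' Set.range (ρ i) := by
          rw [← Set.range_comp]
          rfl
        rw [h4] at h3
        exact h3.of_finite_image (Subtype.val_injective.injOn)
      have h5 : Set.range (fun n => ‖σ (ρ i n)‖) = (fun x => ‖σ x‖) '' Set.range (ρ i) := by
        rw [← Set.range_comp]
        rfl
      rw [h5]
      exact h2.image _
    obtain ⟨B, hB⟩ := hf.bddAbove
    exact ⟨B, fun n => hB ⟨n, rfl⟩⟩
  -- the maximal ratio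
  have hzn : 0 < ‖z‖ := norm_pos_iff.2 hz0
  obtain ⟨i₀, hi₀, hmax₀⟩ := Finset.exists_max_image (Finset.range p) (fun n => ‖s n‖ / C n)
    ⟨0, by simpa using hp⟩
  have hmaxp : ∀ n, ‖s (n + p)‖ / C (n + p) ≤ ‖s n‖ / C n := by
    intro n
    rw [hsp, hCp, norm_mul, norm_inv]
    have h2 := hC0 n
    have h3 : ‖s n‖ * ‖z‖⁻¹ / (C n * β⁻¹) = ‖s n‖ / C n * (β / ‖z‖) := by
      field_simp
    rw [h3]
    have h4 : β / ‖z‖ ≤ 1 := by rw [div_le_one hzn]; exact hcon
    have h5 : 0 ≤ ‖s n‖ / C n := by positivity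
    nlinarith
  have hmax : ∀ n, ‖s n‖ / C n ≤ ‖s i₀‖ / C i₀ := by
    intro n
    induction n using Nat.strong_induction_on with
    | _ n ih =>
      by_cases hn : n < p
      · exact hmax₀ n (Finset.mem_range.2 hn)
      · have h2 := ih (n - p) (by omega)
        have h3 := hmaxp (n - p)
        rw [show n - p + p = n by omega] at h3
        exact le_trans h3 h2
  set u : ℂ := s i₀ / C i₀ with hu
  have hun : ‖u‖ = ‖s i₀‖ / C i₀ := by
    rw [hu, norm_div, Complex.norm_real, Real.norm_of_nonneg (hC0 i₀).le]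
  have hM : ∀ n, ‖s n‖ ≤ ‖u‖ * C n := by
    intro n
    have h2 := hmax n
    rw [← hun, div_le_iff₀ (hC0 n)] at h2
    exact h2
  have hCi0 : (C i₀ : ℂ) ≠ 0 := by exact_mod_cast (hC0 i₀).ne'
  have hCk : ∀ i k : ℕ, C (i + p * k) = C i * (β⁻¹) ^ k := by
    intro i k
    induction k with
    | zero => simp
    | succ k ih =>
      rw [show i + p * (k + 1) = i + p * k + p by ring, hCp, ih, pow_succ]
      ring
  have hlim : ∀ i, ∀ ε : ℝ, 0 < ε → ∃ N, 1 ≤ N ∧ C (i + N) < ε := by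
    intro i ε hε
    have h2 : β⁻¹ < 1 := inv_lt_one_of_one_lt₀ hβ1
    obtain ⟨k, hk⟩ := exists_pow_lt_of_lt_one (div_pos hε (hC0 i)) h2
    refine ⟨p * (k + 1), ?_, ?_⟩
    · have : 0 < p * (k + 1) := by positivity
      omega
    · rw [hCk]
      rw [lt_div_iff₀ (hC0 i)] at hk
      have h3 : (β⁻¹) ^ (k + 1) ≤ (β⁻¹) ^ k :=
        pow_le_pow_of_le_one (by positivity) h2.le (Nat.le_succ k)
      have h4 := hC0 i
      nlinarith
  have hall : ∀ k, s (i₀ + k) = u * C (i₀ + k) := by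
    intro k
    induction k with
    | zero => rw [hu]; simp only [add_zero]; field_simp
    | succ k ih =>
      obtain ⟨B, hB⟩ := hBd (i₀ + k)
      exact CONV_step C s hC0 (d (i₀ + k)) (rmd α (i₀ + k)) (fun n => σ (ρ (i₀ + k) n)) B (i₀ + k)
        u (hd0 _) (hd1 _) (fun n => (CONV_range α _ n).1) hB (hCe (i₀ + k)) (hse (i₀ + k)) ih hM
        (hlim _)
  have h2 := hall p
  have h3 := hall 0
  rw [hsp, hCp] at h2
  simp only [add_zero] at h3
  rw [h3] at h2
  have hu0 : u ≠ 0 := by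
    rw [hu]
    exact div_ne_zero (hs0 i₀) hCi0
  push_cast at h2
  have hβc : (β : ℂ) ≠ 0 := by exact_mod_cast hβ0.ne'
  apply hzβ
  field_simp at h2
  exact h2.symm

end Pool.Agent.PX
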