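import Pool.Agent.helper93.PX.Spec

set_option autoImplicit false

namespace Pool.Agent.PX

open Polynomial

/-! ## small lemmas -/

theorem MAIN_run_zero (L : List ℝ) : run L 0 = 0 := by
  induction L with
  | nil => rfl
  | cons a L ih => simp [run, ih]

theorem MAIN_orb_per (b : ℕ → ℝ) (c : ℝ) (p : ℕ) (hper : ∀ n, b (n + p) = b n) (j n : ℕ) :
    orb b c (j + p) n = orb b c j n := by
  induction n with
  | zero => rfl
  | succ n ih =>
    have h : b (j + p + n) = b (j + n) := by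
      rw [show j + p + n = (j + n) + p by ring, hper]
    simp only [orb, ih, h]

theorem MAIN_per_mod (f : ℕ → ℝ) (p : ℕ) (hper : ∀ n, f (n + p) = f n) (n : ℕ) :
    f n = f (n % p) := by
  have h := Nat.mod_add_div n p
  have : ∀ k m : ℕ, f (m + p * k) = f m := by
    intro k
    induction k with
    | zero => intro m; simp
    | succ k ih =>
      intro m
      rw [show m + p * (k + 1) = (m + p * k) + p by ring, hper, ih]
  conv_lhs => rw [← h]
  rw [this]

theorem MAIN_orb_mod (b : ℕ → ℝ) (c : ℝ) (p : ℕ) (hper : ∀ n, b (n + p) = b n) (j n : ℕ) :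
    orb b c j n = orb b c (j % p) n :=
  MAIN_per_mod (fun j => orb b c j n) p (fun j => MAIN_orb_per b c p hper j n) j

theorem MAIN_orb_range (b : ℕ → ℝ) (c : ℝ) (hc : 0 < c) (j n : ℕ) :
    0 ≤ orb b c j (n + 1) ∧ orb b c j (n + 1) < c := by
  set w := b (j + n) * orb b c j n with hw
  have e : orb b c j (n + 1) = c * Int.fract (w / c) := by
    simp only [orb, ← hw, Int.fract]
    field_simp
  rw [e]
  refine ⟨mul_nonneg hc.le (Int.fract_nonneg _), ?_⟩
  nlinarith [Int.fract_lt_one (w / c)]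

theorem MAIN_orb_nonneg (b : ℕ → ℝ) (c : ℝ) (hc : 0 < c) (j n : ℕ) : 0 ≤ orb b c j n := by
  cases n with
  | zero => simp [orb]
  | succ n => exact (MAIN_orb_range b c hc j n).1

theorem MAIN_orb_mem (b : ℕ → ℝ) (c : ℝ) (K : IntermediateField ℚ ℝ) (hb : ∀ n, b n ∈ K)
    (hc : c ∈ K) (j n : ℕ) : orb b c j n ∈ K := by
  induction n with
  | zero => exact K.one_mem
  | succ n ih =>
    simp only [orb]
    refine K.sub_mem (K.mul_mem (hb _) ih) (K.mul_mem ?_ hc)
    exact intCast_mem K _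

theorem MAIN_chain_mem (E : Set ℝ) (K : IntermediateField ℚ ℝ) (hE : ∀ e ∈ E, e ∈ K) :
    ∀ (T : List ℝ) (c : ℝ), c ∈ K → List.IsChain (fun x y => x - y ∈ E) (c :: T) →
      ∀ x ∈ T, x ∈ K := by
  intro T
  induction T with
  | nil => intro c _ _ x hx; simp at hx
  | cons y T ih =>
    intro c hc hch x hx
    rw [List.isChain_cons_cons] at hch
    have hy : y ∈ K := by
      have := K.sub_mem hc (hE _ hch.1)
      simpa using this
    rcases List.mem_cons.1 hx with rfl | hx
    · exact hy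
    · exact ih y hy hch.2 x hx

theorem MAIN_dec (E : Set ℝ) (hE : ∀ e ∈ E, 0 < e) (T : List ℝ) (c : ℝ)
    (hch : List.IsChain (fun x y => x - y ∈ E) (c :: T))
    (hl : (c :: T).getLast (by simp) = 1) : Dec (c :: T) := by
  refine ⟨hch.imp ?_, ⟨by simp, hl⟩⟩
  intro x y h
  have := hE _ h
  linarith

/-- growth of a small state through blocks without digits -/
theorem MAIN_grow (b : ℕ → ℝ) (c : ℝ) (T : ℕ → List ℝ) (hBW : BW_stmt) (hb : ∀ n, 1 < b n)
    (hc : 1 < c) (hT : ∀ j, Dec (c :: T j)) (l : ℕ) (x : ℝ) (hx : 0 ≤ x) (y : ℕ → ℝ)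
    (hy0 : y 0 = x) (hy : ∀ n, y (n + 1) = run (blk (b (l + n)) c (T (l + n))) (y n)) :
    ∀ s : ℕ, x * ∏ i ∈ Finset.range s, b (l + i) < 1 →
      y s = x * ∏ i ∈ Finset.range s, b (l + i) := by
  intro s
  induction s with
  | zero => intro _; simp [hy0]
  | succ s ih =>
    intro hs
    have hP : 0 ≤ x * ∏ i ∈ Finset.range s, b (l + i) :=
      mul_nonneg hx (Finset.prod_nonneg fun i _ => by linarith [hb (l + i)])
    rw [Finset.prod_range_succ, ← mul_assoc] at hs ⊢
    have hbs := hb (l + s)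
    have h1 : x * ∏ i ∈ Finset.range s, b (l + i) < 1 := by nlinarith
    rw [hy, ih h1]
    set z := x * ∏ i ∈ Finset.range s, b (l + i) with hz
    have hbz : 0 ≤ b (l + s) * z := mul_nonneg (by linarith) hP
    have hbz1 : b (l + s) * z < 1 := by linarith
    have hfl : ⌊b (l + s) * z / c⌋ = 0 := by
      rw [Int.floor_eq_zero_iff]
      refine ⟨by positivity, ?_⟩
      rw [div_lt_one (by linarith)]
      linarith
    have := (hBW (T (l + s)) (b (l + s)) c z (by linarith) hbz (hT _)).1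
    simp only [hfl] at this
    norm_num at this
    rw [this hbz1]
    ring

theorem MAIN_kill (b : ℝ) (c : ℝ) (T : List ℝ) (hBW : BW_stmt) (hc : 1 < c)
    (hT : Dec (c :: T)) (x a : ℝ) (ha : b * x = a) (ha0 : 0 ≤ a) (hac : a < c) (haT : a ∈ T) :
    run (blk b c T) x = 0 := by
  have hfl : ⌊b * x / c⌋ = 0 := by
    rw [Int.floor_eq_zero_iff, ha]
    refine ⟨by positivity, ?_⟩
    rw [div_lt_one (by linarith)]
    linarith
  have := (hBW T b c x (by linarith) (by rw [ha]; exact ha0) hT).2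
  simp only [hfl] at this
  norm_num at this
  apply this
  rw [ha]
  exact haT

/-- the chains of all blocks -/
theorem MAIN_B (hSG : SG_stmt) (hDEN : DEN_stmt) (hCH : CH_stmt) (β : ℝ) (hβ : IsPerron β)
    (p : ℕ) (hp : 0 < p) (b : ℕ → ℝ) (h1 : ∀ n, 1 < b n)
    (hK : ∀ n, b n ∈ IntermediateField.adjoin ℚ ({β} : Set ℝ)) (c : ℝ) (hc1 : 1 < c)
    (hcK : c ∈ IntermediateField.adjoin ℚ ({β} : Set ℝ)) (H : Finset ℝ)
    (hH : ∀ x ∈ H, x ∈ IntermediateField.adjoin ℚ ({β} : Set ℝ) ∧ 1 ≤ x ∧ x < c) :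
    ∃ (m : ℕ) (A : Finset ℝ) (T : ℕ → List ℝ), 0 < m ∧ (∀ a ∈ A, 1 < a ∧ a < c) ∧
      (∀ a ∈ A, a ∈ IntermediateField.adjoin ℚ ({β} : Set ℝ)) ∧
      (∀ j, T (j + p) = T j) ∧ (∀ j, (c :: T j).getLast (by simp) = 1) ∧
      (∀ j, List.IsChain (fun x y => x - y ∈
        {e : ℝ | ∃ a ∈ A, e = a * (∏ i ∈ Finset.range (j % p), b (i + 1)) / β ^ m}) (c :: T j)) ∧
      (∀ j, ∀ x ∈ H, x ∈ T j) ∧ (∀ j, j % p = 0 → ∀ a ∈ A, a ∈ T j) := by
  classical
  set K := IntermediateField.adjoin ℚ ({β} : Set ℝ) with hKdef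
  have hβK : β ∈ K := IntermediateField.mem_adjoin_simple_self ℚ β
  have hβ1 : 1 < β := hβ.2.1
  have hβ0 : 0 < β := by linarith
  obtain ⟨h₀, hh₀⟩ := hSG β hβ c hc1
  set q : ℕ → ℝ := fun j => ∏ i ∈ Finset.range j, b (i + 1) with hq
  have hq0 : ∀ j, 0 < q j := fun j => Finset.prod_pos fun i _ => by linarith [h1 (i + 1)]
  have hqK : ∀ j, q j ∈ K := fun j => K.prod_mem fun i _ => hK (i + 1)
  set F₀ : Finset ℝ := insert 1 (insert c H) with hF₀
  have hF₀K : ∀ u ∈ F₀, u ∈ K := by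
    intro u hu
    simp only [hF₀, Finset.mem_insert] at hu
    rcases hu with rfl | rfl | hu
    · exact K.one_mem
    · exact hcK
    · exact (hH u hu).1
  have hF₀r : ∀ u ∈ F₀, 1 ≤ u ∧ u ≤ c := by
    intro u hu
    simp only [hF₀, Finset.mem_insert] at hu
    rcases hu with rfl | rfl | hu
    · exact ⟨le_rfl, hc1.le⟩
    · exact ⟨hc1.le, le_rfl⟩
    · exact ⟨(hH u hu).2.1, (hH u hu).2.2.le⟩
  set D : Finset ℝ := (Finset.range p).biUnion fun j => F₀.image (fun u => u / q j) with hD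
  obtain ⟨N, hN, hND⟩ := hDEN β hβ.1 D (by
    intro x hx
    simp only [hD, Finset.mem_biUnion, Finset.mem_range, Finset.mem_image] at hx
    obtain ⟨j, _, u, hu, rfl⟩ := hx
    exact K.div_mem (hF₀K u hu) (hqK j))
  obtain ⟨M, hM⟩ := exists_nat_gt (max h₀ 1)
  have hM0 : h₀ < M := lt_of_le_of_lt (le_max_left _ _) hM
  have hM1 : (1 : ℝ) < M := lt_of_le_of_lt (le_max_right _ _) hM
  have hN1 : (1 : ℝ) ≤ N := by exact_mod_cast hN
  set h : ℝ := N * M with hh
  have hhM : (M : ℝ) ≤ h := by rw [hh]; nlinarith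
  have hh0 : 0 < h := by linarith
  obtain ⟨G, hG, hGs⟩ := hh₀ h (by linarith)
  set A : Finset ℝ := G.image (fun g => g / h) with hA
  have hA1 : ∀ a ∈ A, 1 < a ∧ a < c := by
    intro a ha
    simp only [hA, Finset.mem_image] at ha
    obtain ⟨g, hg, rfl⟩ := ha
    obtain ⟨_, h2, h3⟩ := hG g hg
    exact ⟨by rw [lt_div_iff₀ hh0]; linarith, by rw [div_lt_iff₀ hh0]; linarith⟩
  have hRK : ∀ x : ℝ, x ∈ Algebra.adjoin ℤ ({β} : Set ℝ) → x ∈ K := by
    intro x hx
    induction hx using Algebra.adjoin_induction with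
    | mem x hx => rw [Set.mem_singleton_iff] at hx; rw [hx]; exact hβK
    | algebraMap r => exact intCast_mem K r
    | add x y _ _ hx hy => exact K.add_mem hx hy
    | mul x y _ _ hx hy => exact K.mul_mem hx hy
  have hAK : ∀ a ∈ A, a ∈ K := by
    intro a ha
    simp only [hA, Finset.mem_image] at ha
    obtain ⟨g, hg, rfl⟩ := ha
    refine K.div_mem (hRK g (hG g hg).1) ?_
    rw [hh]
    exact K.mul_mem (natCast_mem K N) (natCast_mem K M)
  set F : ℕ → Finset ℝ := fun j => if j = 0 then F₀ ∪ A else F₀ with hF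
  have hF0F : ∀ j, F₀ ⊆ F j := by
    intro j u hu
    simp only [hF]
    split_ifs
    · exact Finset.mem_union_left _ hu
    · exact hu
  have hR : ∀ j < p, ∀ u ∈ F j, h * u / q j ∈ Algebra.adjoin ℤ ({β} : Set ℝ) := by
    intro j hj u hu
    have base : ∀ u ∈ F₀, h * u / q j ∈ Algebra.adjoin ℤ ({β} : Set ℝ) := by
      intro u hu
      have := hND (u / q j) (by
        simp only [hD, Finset.mem_biUnion, Finset.mem_range, Finset.mem_image]
        exact ⟨j, hj, u, hu, rfl⟩)
      have h2 := mul_mem (natCast_mem (Algebra.adjoin ℤ ({β} : Set ℝ)) M) this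
      have e : h * u / q j = (M : ℝ) * ((N : ℝ) * (u / q j)) := by
        rw [hh]; ring
      rw [e]
      exact h2
    simp only [hF] at hu
    split_ifs at hu with hj0
    · rcases Finset.mem_union.1 hu with hu | hu
      · exact base u hu
      · simp only [hA, Finset.mem_image] at hu
        obtain ⟨g, hg, rfl⟩ := hu
        have e : h * (g / h) / q j = g := by
          rw [hj0]
          simp only [hq, Finset.range_zero, Finset.prod_empty, div_one]
          field_simp
        rw [e]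
        exact (hG g hg).1
    · exact base u hu
  have hFr : ∀ j, ∀ u ∈ F j, 1 ≤ u ∧ u ≤ c := by
    intro j u hu
    simp only [hF] at hu
    split_ifs at hu
    · rcases Finset.mem_union.1 hu with hu | hu
      · exact hF₀r u hu
      · exact ⟨(hA1 u hu).1.le, (hA1 u hu).2.le⟩
    · exact hF₀r u hu
  have hev : ∀ᶠ m : ℕ in Filter.atTop, ∀ j ∈ Finset.range p, ∀ u ∈ F j, ∀ v ∈ F j, u < v →
      ∃ l : List ℝ, (∀ g ∈ l, g ∈ G) ∧ l.sum = β ^ m * (h * (v - u) / q j) := by
    refine (Finset.eventually_all _).2 fun j hj => ?_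
    refine (Finset.eventually_all _).2 fun u hu => ?_
    refine (Finset.eventually_all _).2 fun v hv => ?_
    by_cases huv : u < v
    · have hy : h * (v - u) / q j ∈ Algebra.adjoin ℤ ({β} : Set ℝ) := by
        have := sub_mem (hR j (Finset.mem_range.1 hj) v hv) (hR j (Finset.mem_range.1 hj) u hu)
        have e : h * (v - u) / q j = h * v / q j - h * u / q j := by ring
        rw [e]
        exact this
      have hy0 : 0 < h * (v - u) / q j := by
        have := hq0 j
        have : 0 < v - u := by linarith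
        positivity
      obtain ⟨k₀, hk₀⟩ := hGs _ hy hy0
      filter_upwards [Filter.eventually_ge_atTop k₀] with m hm _
      exact hk₀ m hm
    · exact Filter.Eventually.of_forall fun m h => absurd h huv
  obtain ⟨m, hm, hm1⟩ := (hev.and (Filter.eventually_ge_atTop 1)).exists
  have hβm : 0 < β ^ m := pow_pos hβ0 m
  have hchain : ∀ j < p, ∃ T : List ℝ, T ≠ [] ∧ (c :: T).getLast (by simp) = 1 ∧
      List.IsChain (fun x y => x - y ∈ {e : ℝ | ∃ a ∈ A, e = a * q j / β ^ m}) (c :: T) ∧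
      ∀ x ∈ F j, x ≠ c → x ∈ T := by
    intro j hj
    have hqj := hq0 j
    refine hCH _ (F j) c hc1 ?_ ?_ ?_ (hFr j) ?_
    · rintro e ⟨a, ha, rfl⟩
      have := (hA1 a ha).1
      positivity
    · exact hF0F j (by simp [hF₀])
    · exact hF0F j (by simp [hF₀])
    · intro u hu v hv huv
      obtain ⟨l, hl, hls⟩ := hm j (Finset.mem_range.2 hj) u hu v hv huv
      refine ⟨l.map (fun g => g / h * q j / β ^ m), ?_, ?_⟩
      · intro e he
        obtain ⟨g, hg, rfl⟩ := List.mem_map.1 he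
        exact ⟨g / h, Finset.mem_image.2 ⟨g, hl g hg, rfl⟩, rfl⟩
      · have e : (fun g : ℝ => g / h * q j / β ^ m) = fun g => g * (q j / (h * β ^ m)) := by
          funext g
          field_simp
        rw [e, List.sum_map_mul_right]
        simp only [List.map_id']
        rw [hls]
        field_simp
  choose! Tf hTf using hchain
  refine ⟨m, A, fun j => Tf (j % p), hm1, hA1, hAK, ?_, ?_, ?_, ?_, ?_⟩
  · intro j
    simp
  · intro j
    exact (hTf (j % p) (Nat.mod_lt _ hp)).2.1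
  · intro j
    exact (hTf (j % p) (Nat.mod_lt _ hp)).2.2.1
  · intro j x hx
    refine (hTf (j % p) (Nat.mod_lt _ hp)).2.2.2 x (hF0F _ (by simp [hF₀, hx])) ?_
    exact (hH x hx).2.2.ne
  · intro j hj a ha
    refine (hTf (j % p) (Nat.mod_lt _ hp)).2.2.2 a ?_ (hA1 a ha).2.ne
    simp only [hF, hj, if_true]
    exact Finset.mem_union_right _ ha

theorem MAIN_suffix_chain {R : ℝ → ℝ → Prop} {l l' : List ℝ} (h : List.IsChain R l)
    (hs : l' <:+ l) : List.IsChain R l' := by
  obtain ⟨s, rfl⟩ := hs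
  exact (List.isChain_append.1 h).2.1

theorem MAIN_suffix_last {l l' : List ℝ} (hs : l' <:+ l) (h' : l' ≠ []) (h : l ≠ []) :
    l'.getLast h' = l.getLast h := by
  obtain ⟨s, rfl⟩ := hs
  rw [List.getLast_append_of_ne_nil _ h']

/-- Case 1: a start in the interior of block j; the block orbit vanishes. -/
theorem MAIN_C1 (hBW : BW_stmt) (β : ℝ) (hβ0 : 0 < β) (p : ℕ) (hp : 0 < p) (b : ℕ → ℝ)
    (hper : ∀ n, b (n + p) = b n) (h1 : ∀ n, 1 < b n)
    (hprod : β = ∏ i ∈ Finset.range p, b i) (c : ℝ) (hc1 : 1 < c) (hcb : ∀ n, c < b n)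
    (m : ℕ) (hm : 0 < m) (A : Finset ℝ) (T : ℕ → List ℝ) (hA : ∀ a ∈ A, 1 < a ∧ a < c)
    (hdec : ∀ j, Dec (c :: T j)) (hAT : ∀ j, j % p = 0 → ∀ a ∈ A, a ∈ T j)
    (j : ℕ) (a : ℝ) (ha : a ∈ A) (y : ℕ → ℝ)
    (hy0 : y 0 = a * (∏ i ∈ Finset.range (j % p), b (i + 1)) / β ^ m)
    (hy : ∀ n, y (n + 1) = run (blk (b (j + 1 + n)) c (T (j + 1 + n))) (y n)) :
    ∃ n, y n = 0 := by
  have hpowprod : ∀ k : ℕ, ∏ i ∈ Finset.range (p * k), b i = β ^ k := by
    intro k
    induction k with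
    | zero => simp
    | succ k ih =>
      rw [Nat.mul_succ, Finset.prod_range_add, ih, pow_succ]
      congr 1
      rw [hprod]
      refine Finset.prod_congr rfl fun i _ => ?_
      have := MAIN_per_mod b p hper (p * k + i)
      rw [this, Nat.mul_add_mod]
      exact (MAIN_per_mod b p hper i).symm
  set j₀ := j % p with hj₀
  have hj₀p : j₀ < p := Nat.mod_lt _ hp
  have hpm : p ≤ p * m := Nat.le_mul_of_pos_right p hm
  obtain ⟨s, hs⟩ : ∃ s, p * m = j₀ + 1 + s := ⟨p * m - (j₀ + 1), by omega⟩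
  have ha1 := hA a ha
  have hβm : 0 < β ^ m := pow_pos hβ0 m
  -- product identity
  have hP : (∏ i ∈ Finset.range j₀, b (i + 1)) * (∏ i ∈ Finset.range s, b (j + 1 + i)) * b 0
      = β ^ m := by
    rw [← hpowprod m, hs, show j₀ + 1 + s = (j₀ + s) + 1 by ring, Finset.prod_range_succ',
      Finset.prod_range_add]
    congr 2
    refine Finset.prod_congr rfl fun i _ => ?_
    rw [MAIN_per_mod b p hper (j + 1 + i), MAIN_per_mod b p hper (j₀ + i + 1)]
    congr 1
    rw [hj₀, show j + 1 + i = j + (1 + i) by ring, show j % p + i + 1 = j % p + (1 + i) by ring]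
    simp [Nat.add_mod]
  have hb0 := h1 0
  have hcb0 := hcb 0
  have hQ0 : 0 ≤ ∏ i ∈ Finset.range j₀, b (i + 1) :=
    Finset.prod_nonneg fun i _ => by linarith [h1 (i + 1)]
  have hval : a * (∏ i ∈ Finset.range j₀, b (i + 1)) / β ^ m *
      ∏ i ∈ Finset.range s, b (j + 1 + i) = a / b 0 := by
    rw [← hP] at hβm ⊢
    have hb00 : b 0 ≠ 0 := by linarith
    have h3 : (∏ i ∈ Finset.range j₀, b (i + 1)) * (∏ i ∈ Finset.range s, b (j + 1 + i)) ≠ 0 := by
      intro h0
      rw [h0] at hβm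
      simp at hβm
    have h4 : (∏ i ∈ Finset.range j₀, b (i + 1)) ≠ 0 := left_ne_zero_of_mul h3
    have h5 : (∏ i ∈ Finset.range s, b (j + 1 + i)) ≠ 0 := right_ne_zero_of_mul h3
    field_simp
  have hlt : a / b 0 < 1 := by
    rw [div_lt_one (by linarith)]
    linarith
  have hg := MAIN_grow b c T hBW h1 hc1 hdec (j + 1)
    (a * (∏ i ∈ Finset.range j₀, b (i + 1)) / β ^ m)
    (by have := ha1.1; positivity) y hy0 hy s (by rw [hval]; exact hlt)
  rw [hval] at hg
  refine ⟨s + 1, ?_⟩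
  rw [hy, hg]
  have hmod : (j + 1 + s) % p = 0 := by
    have h2 : (j + 1 + s) % p = (j₀ + 1 + s) % p := by
      rw [hj₀, show j + 1 + s = j + (1 + s) by ring,
        show j % p + 1 + s = j % p + (1 + s) by ring]
      simp [Nat.add_mod]
    rw [h2, ← hs]
    simp
  have hbb : b (j + 1 + s) = b 0 := by
    rw [MAIN_per_mod b p hper (j + 1 + s), hmod]
  rw [hbb]
  refine MAIN_kill (b 0) c (T (j + 1 + s)) hBW hc1 (hdec _) (a / b 0) a ?_ ?_ ha1.2
    (hAT _ hmod a ha)
  · have : b 0 ≠ 0 := by linarith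
    field_simp
  · linarith [ha1.1]

/-- Case 2: a start at the beginning of block j. -/
theorem MAIN_C2 (hBW : BW_stmt) (b : ℕ → ℝ) (h1 : ∀ n, 1 < b n) (c : ℝ) (hc1 : 1 < c)
    (T : ℕ → List ℝ) (hdec : ∀ j, Dec (c :: T j)) (j t : ℕ)
    (ht0 : 1 ≤ t) (hlt : ∀ n, 1 ≤ n → n < t → orb b c j n < 1)
    (hmem : orb b c j t ∈ T (j + t - 1)) (y : ℕ → ℝ) (hy0 : y 0 = 1)
    (hy : ∀ n, y (n + 1) = run (blk (b (j + n)) c (T (j + n))) (y n)) :
    ∃ n, y n = 0 := by
  have hc0 : 0 < c := by linarith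
  have key : ∀ n, n < t → y n = orb b c j n := by
    intro n
    induction n with
    | zero => intro _; rw [hy0]; rfl
    | succ n ih =>
      intro hn
      rw [hy, ih (by omega)]
      have hb := h1 (j + n)
      have ho := MAIN_orb_nonneg b c hc0 j n
      exact (hBW (T (j + n)) (b (j + n)) c (orb b c j n) hc0 (mul_nonneg (by linarith) ho)
        (hdec _)).1 (hlt (n + 1) (by omega) hn)
  refine ⟨t, ?_⟩
  obtain ⟨n, rfl⟩ : ∃ n, t = n + 1 := ⟨t - 1, by omega⟩
  rw [hy, key n (by omega)]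
  have hmem' : orb b c j (n + 1) ∈ T (j + n) := by simpa using hmem
  have hb := h1 (j + n)
  have ho := MAIN_orb_nonneg b c hc0 j n
  exact (hBW (T (j + n)) (b (j + n)) c (orb b c j n) hc0 (mul_nonneg (by linarith) ho)
    (hdec _)).2 hmem'

theorem MAIN_zero_forever (α : ℕ → ℝ) (i : ℕ) (r : ℕ → ℝ)
    (hr : ∀ n, r (n + 1) = α (n + i) * r n - (⌊α (n + i) * r n⌋ : ℝ)) (N : ℕ) (h : r N = 0) :
    ∀ n, N ≤ n → r n = 0 ∧ ⌊α (n + i) * r n⌋ = 0 := by
  intro n hn
  induction n, hn using Nat.le_induction with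
  | base => simp [h]
  | succ n _ ih =>
    have : r (n + 1) = 0 := by rw [hr, ih.1]; simp
    simp [this]

theorem MAIN_prod_Ico (f : ℕ → ℝ) : ∀ (L : List ℝ) (n : ℕ),
    (∀ i, ∀ h : i < L.length, f (n + i) = L[i]) →
    ∏ i ∈ Finset.Ico n (n + L.length), f i = L.prod := by
  intro L
  induction L with
  | nil => intro n _; simp
  | cons a L ih =>
    intro n h
    have h0 := h 0 (by simp)
    have hlt : n < n + (a :: L).length := by simp
    rw [Finset.prod_eq_prod_Ico_succ_bot hlt, List.prod_cons]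
    have e : n + (a :: L).length = (n + 1) + L.length := by simp; ring
    rw [e, ih (n + 1) (fun i hi => by
      have := h (i + 1) (by simp; omega)
      rw [show n + 1 + i = n + (i + 1) by ring, this]
      simp)]
    simp only [add_zero] at h0
    rw [h0]
    simp

/-- The main theorem from the rows. -/
theorem MAIN (hSG : SG_stmt) (hDEN : DEN_stmt) (hOC : OC_stmt) (hCH : CH_stmt) (hRS : RS_stmt)
    (hBW : BW_stmt) (hCAT : CAT_stmt) (hRC : RC_stmt) (hRP : RP_stmt) : MAIN_stmt := by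
  classical
  intro β hβ p b hp hper h1 hprod hK ε hε
  set K := IntermediateField.adjoin ℚ ({β} : Set ℝ) with hKdef
  have hβK : β ∈ K := IntermediateField.mem_adjoin_simple_self ℚ β
  have hβ1 : 1 < β := hβ.2.1
  have hβ0 : 0 < β := by linarith
  -- lower bound of the entries
  obtain ⟨i₀, hi₀, hmin₀⟩ := Finset.exists_min_image (Finset.range p) b ⟨0, by simpa using hp⟩
  have hμ : ∀ n, b i₀ ≤ b n := by
    intro n
    rw [MAIN_per_mod b p hper n]
    exact hmin₀ _ (Finset.mem_range.2 (Nat.mod_lt _ hp))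
  obtain ⟨cq, hc1, hcu, hcμ, hhole⟩ := hOC b (b i₀) (h1 i₀) hμ p (min 2 (1 + ε))
    (by rw [lt_min_iff]; constructor <;> linarith)
  set c : ℝ := (cq : ℝ) with hc
  have hc2 : c < 2 := lt_of_lt_of_le hcu (min_le_left _ _)
  have hcε : c < 1 + ε := lt_of_lt_of_le hcu (min_le_right _ _)
  have hcb : ∀ n, c < b n := fun n => lt_of_lt_of_le hcμ (hμ n)
  have hc0 : 0 < c := by linarith
  have hcK : c ∈ K := by simp [hc]
  have hmin : ∀ j, j < p → ∃ t, 1 ≤ t ∧ 1 ≤ orb b c j t ∧
      ∀ n, 1 ≤ n → n < t → orb b c j n < 1 := by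
    intro j hj
    have hex := hhole j hj
    refine ⟨Nat.find hex, (Nat.find_spec hex).1, (Nat.find_spec hex).2, ?_⟩
    intro n hn hnt
    by_contra hcon
    exact Nat.find_min hex hnt ⟨hn, not_lt.1 hcon⟩
  choose! tf htf using hmin
  set H : Finset ℝ := (Finset.range p).image (fun j => orb b c j (tf j)) with hHdef
  have hH : ∀ x ∈ H, x ∈ K ∧ 1 ≤ x ∧ x < c := by
    intro x hx
    simp only [hHdef, Finset.mem_image, Finset.mem_range] at hx
    obtain ⟨j, hj, rfl⟩ := hx
    obtain ⟨ht1, ht2, _⟩ := htf j hj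
    refine ⟨MAIN_orb_mem b c K hK hcK j _, ht2, ?_⟩
    obtain ⟨n, hn⟩ : ∃ n, tf j = n + 1 := ⟨tf j - 1, by omega⟩
    rw [hn]
    exact (MAIN_orb_range b c hc0 j n).2
  obtain ⟨m, A, T, hm, hA, hAK, hTper, hlast, hchain, hHT, hAT⟩ :=
    MAIN_B hSG hDEN hCH β hβ p hp b h1 hK c hc1 hcK H hH
  have hβm : 0 < β ^ m := pow_pos hβ0 m
  have hQ0 : ∀ j, 0 < ∏ i ∈ Finset.range (j % p), b (i + 1) := fun j =>
    Finset.prod_pos fun i _ => by linarith [h1 (i + 1)]
  have hdec : ∀ j, Dec (c :: T j) := fun j =>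
    MAIN_dec _ (by
      rintro e ⟨a, ha, rfl⟩
      have := (hA a ha).1
      have := hQ0 j
      positivity) (T j) c (hchain j) (hlast j)
  have hTK : ∀ j, ∀ x ∈ T j, x ∈ K := fun j =>
    MAIN_chain_mem _ K (by
      rintro e ⟨a, ha, rfl⟩
      exact K.div_mem (K.mul_mem (hAK a ha) (K.prod_mem fun i _ => hK (i + 1)))
        (pow_mem hβK m)) (T j) c hcK (hchain j)
  set Bl : ℕ → List ℝ := fun j => blk (b j) c (T j) with hBl
  obtain ⟨κ, α, hκ0, hκ, hα, hαp, hcov⟩ := hCAT Bl p (fun j => by simp [hBl, blk])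
    (fun j => by simp only [hBl, hper, hTper])
  have hBlK : ∀ j, ∀ a ∈ Bl j, 1 < a ∧ a ∈ K := by
    intro j a ha
    simp only [hBl, blk, List.mem_cons] at ha
    rcases ha with rfl | ha
    · refine ⟨?_, K.div_mem (hK j) hcK⟩
      rw [lt_div_iff₀ hc0]
      linarith [hcb j]
    · obtain ⟨_, _, h3, h4, _⟩ := hRP (T j) (b j) c (hdec j)
      exact ⟨h3 a ha, h4 K hcK (hTK j) a ha⟩
  have hαmem : ∀ n, 1 < α n ∧ α n ∈ K := by
    intro n
    obtain ⟨j, i, hi, rfl⟩ := hcov n
    rw [hα j i hi]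
    exact hBlK j _ (List.getElem_mem hi)
  have hκm : StrictMono κ := strictMono_nat_of_lt_succ fun j => by
    rw [hκ]
    simp [hBl, blk]
  have hκle : ∀ j n, κ j ≤ κ (j + n) := fun j n => hκm.monotone (Nat.le_add_right _ _)
  have hprodb : ∀ j, ∏ i ∈ Finset.Ico (κ j) (κ (j + 1)), α i = b j := by
    intro j
    rw [hκ, MAIN_prod_Ico α (Bl j) (κ j) (hα j)]
    exact (hRP (T j) (b j) c (hdec j)).1
  refine ⟨κ, α, hκ0, hκm, hαp, fun n => (hαmem n).1, fun n => (hαmem n).2, ?_, ?_, ?_⟩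
  · intro j _
    refine ⟨hprodb j, ?_⟩
    have hlen : κ (j + 1) = (κ j + 1) + (ratios (c :: T j)).length := by
      rw [hκ]
      simp only [hBl, blk, List.length_cons]
      ring
    rw [hlen, MAIN_prod_Ico α (ratios (c :: T j)) (κ j + 1) (fun i hi => by
      have := hα j (i + 1) (by simp only [hBl, blk, List.length_cons]; omega)
      rw [show κ j + 1 + i = κ j + (i + 1) by ring, this]
      simp [hBl, blk])]
    rw [(hRP (T j) (b j) c (hdec j)).2.1]
    exact hcε
  · have : ∀ j, ∏ i ∈ Finset.range (κ j), α i = ∏ i ∈ Finset.range j, b i := by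
      intro j
      induction j with
      | zero => simp [hκ0]
      | succ j ih =>
        rw [Finset.prod_range_succ, ← ih, ← hprodb j,
          Finset.prod_range_mul_prod_Ico _ (hκle j 1)]
    rw [this, ← hprod]
  · intro i r hr0 hr
    obtain ⟨j, k, hk, hi⟩ := hcov i
    have hrun := hRC α i r hr
    -- it suffices to find a zero
    suffices hz : ∃ N, r N = 0 by
      obtain ⟨N, hN⟩ := hz
      exact ⟨N, MAIN_zero_forever α i r hr N hN⟩
    have hij : ∀ n, i ≤ κ (j + 1 + n) := by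
      intro n
      have h2 := hκle (j + 1) n
      have h3 := hκ j
      omega
    have hstep : ∀ l, i ≤ κ l → r (κ (l + 1) - i) = run (Bl l) (r (κ l - i)) := by
      intro l hl
      have h2 := hrun (Bl l) (κ l - i) (fun k' hk' => by
        rw [show κ l - i + k' + i = κ l + k' by omega, hα l k' hk'])
      rw [← h2]
      congr 1
      rw [hκ]
      omega
    rcases Nat.eq_zero_or_pos k with hk0 | hk0
    · -- start at the beginning of block j
      have hiκ : i = κ j := by omega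
      obtain ⟨ht1, ht2, ht3⟩ := htf (j % p) (Nat.mod_lt _ hp)
      obtain ⟨n, hn⟩ := MAIN_C2 hBW b h1 c hc1 T hdec j (tf (j % p)) ht1
        (fun n hn1 hn2 => by rw [MAIN_orb_mod b c p hper]; exact ht3 n hn1 hn2)
        (by
          refine hHT _ _ ?_
          simp only [hHdef, Finset.mem_image, Finset.mem_range]
          exact ⟨j % p, Nat.mod_lt _ hp, (MAIN_orb_mod b c p hper j _).symm⟩)
        (fun n => r (κ (j + n) - i)) (by simp [hiκ, hr0])
        (fun n => by
          have := hstep (j + n) (by rw [hiκ]; exact hκle j n)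
          exact this)
      exact ⟨_, hn⟩
    · -- start in the interior of block j
      obtain ⟨_, _, _, _, h5⟩ := hRP (T j) (b j) c (hdec j)
      obtain ⟨x, y, T', hsuf, hdrop⟩ := h5 k hk0 hk
      have hchs : List.IsChain (fun x y => x - y ∈
          {e : ℝ | ∃ a ∈ A, e = a * (∏ i ∈ Finset.range (j % p), b (i + 1)) / β ^ m})
          (x :: y :: T') := MAIN_suffix_chain (hchain j) hsuf
      rw [List.isChain_cons_cons] at hchs
      obtain ⟨a, ha, hxy⟩ := hchs.1
      have hdecs : Dec (x :: y :: T') := by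
        refine ⟨MAIN_suffix_chain (hdec j).1 hsuf, by simp, ?_⟩
        obtain ⟨h6, h7⟩ := (hdec j).2
        rw [MAIN_suffix_last hsuf (by simp) h6, h7]
      have hxc : x < 2 := by
        have hxm : x ∈ c :: T j := hsuf.subset (by simp)
        rcases List.mem_cons.1 hxm with rfl | hxm
        · exact hc2
        · have hpw := List.isChain_iff_pairwise.1 (hdec j).1
          have := (List.pairwise_cons.1 hpw).1 x hxm
          linarith
      have hrun0 := hrun ((Bl j).drop k) 0 (fun k' hk' => by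
        rw [List.getElem_drop]
        have h8 : k + k' < (Bl j).length := by
          rw [List.length_drop] at hk'
          omega
        rw [show 0 + k' + i = κ j + (k + k') by omega, hα j (k + k') h8])
      have hlen0 : 0 + ((Bl j).drop k).length = κ (j + 1) - i := by
        rw [List.length_drop, hκ]
        omega
      rw [hlen0, hr0] at hrun0
      have hdrop' : (Bl j).drop k = ratios (x :: y :: T') := hdrop
      rw [hdrop', hRS T' x y hxc hdecs, hxy] at hrun0
      obtain ⟨n, hn⟩ := MAIN_C1 hBW β hβ0 p hp b hper h1 hprod c hc1 hcb m hm A T hA hdec hAT j a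
        ha (fun n => r (κ (j + 1 + n) - i)) hrun0
        (fun n => by
          have := hstep (j + 1 + n) (hij n)
          exact this)
      exact ⟨_, hn⟩

end Pool.Agent.PX
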