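import Pool.Agent.helper93.PX.Fin

set_option autoImplicit false

namespace Pool.Agent.PX

open Polynomial

/-- Pisot number: algebraic integer > 1, all other conjugates of modulus less than 1. -/
def IsPisot (β : ℝ) : Prop :=
  IsIntegral ℤ β ∧ 1 < β ∧
    ∀ z : ℂ, Polynomial.aeval z (minpoly ℤ β) = 0 → z ≠ (β : ℂ) → ‖z‖ < 1

/-- An element of ℚ(β), small and positive, with a large conjugate at a given place. -/
theorem NP_small (β : ℝ) (σ : IntermediateField.adjoin ℚ ({β} : Set ℝ) →ₐ[ℚ] ℂ) (z : ℂ)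
    (hσ : σ ⟨β, IntermediateField.mem_adjoin_simple_self ℚ β⟩ = z) (hzβ : z ≠ (β : ℂ))
    (δ : ℝ) (hδ : 0 < δ) :
    ∃ v : IntermediateField.adjoin ℚ ({β} : Set ℝ), 0 < (v : ℝ) ∧ (v : ℝ) < δ ∧ 1 ≤ ‖σ v‖ := by
  have hd : 0 < ‖z - β‖ := norm_pos_iff.2 (sub_ne_zero.2 hzβ)
  obtain ⟨N, hN⟩ := exists_nat_gt (4 / ‖z - β‖ ^ 2)
  have hN0 : (0 : ℝ) < N := lt_of_le_of_lt (by positivity) hN
  have hd2 : 0 < ‖z - β‖ ^ 2 := by positivity
  rw [div_lt_iff₀ hd2] at hN
  obtain ⟨q, hq1, hq2⟩ := exists_rat_btwn (show β < β + min (‖z - β‖ / 2) (min 1 (δ / (2 * N))) by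
    have : 0 < min (‖z - β‖ / 2) (min 1 (δ / (2 * N))) := by positivity
    linarith)
  have h1 : (q : ℝ) - β < ‖z - β‖ / 2 := by
    have := min_le_left (‖z - β‖ / 2) (min 1 (δ / (2 * N)))
    linarith
  have h2 : (q : ℝ) - β < 1 := by
    have := (min_le_right (‖z - β‖ / 2) (min 1 (δ / (2 * N)))).trans (min_le_left _ _)
    linarith
  have h3 : (q : ℝ) - β < δ / (2 * N) := by
    have := (min_le_right (‖z - β‖ / 2) (min 1 (δ / (2 * N)))).trans (min_le_right _ _)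
    linarith
  have h0 : 0 < (q : ℝ) - β := by linarith
  set βK : IntermediateField.adjoin ℚ ({β} : Set ℝ) :=
    ⟨β, IntermediateField.mem_adjoin_simple_self ℚ β⟩ with hβK
  refine ⟨(N : IntermediateField.adjoin ℚ ({β} : Set ℝ)) *
    ((algebraMap ℚ (IntermediateField.adjoin ℚ ({β} : Set ℝ)) q) - βK) ^ 2, ?_, ?_, ?_⟩
  · push_cast
    have e : ((algebraMap ℚ (IntermediateField.adjoin ℚ ({β} : Set ℝ)) q : ℝ)) = q := rfl
    rw [e]
    positivity
  · push_cast
    have e : ((algebraMap ℚ (IntermediateField.adjoin ℚ ({β} : Set ℝ)) q : ℝ)) = q := rfl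
    rw [e]
    have e2 : (βK : ℝ) = β := rfl
    rw [e2]
    have h4 : ((q : ℝ) - β) ^ 2 ≤ (q : ℝ) - β := by nlinarith
    have h5 : (N : ℝ) * ((q : ℝ) - β) < δ := by
      rw [lt_div_iff₀ (by positivity)] at h3
      nlinarith
    nlinarith
  · rw [map_mul, map_pow, map_sub, map_natCast, hσ, AlgHom.commutes]
    rw [norm_mul, norm_pow]
    have e3 : ‖(N : ℂ)‖ = N := by simp
    rw [e3]
    have e4 : (algebraMap ℚ ℂ q) = (((q : ℝ)) : ℂ) := by simp
    rw [e4]
    have h6 : ‖z - β‖ ≤ ‖((q : ℝ) : ℂ) - z‖ + ‖((q : ℝ) : ℂ) - (β : ℂ)‖ := by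
      have e5 : z - β = -(((q : ℝ) : ℂ) - z) + (((q : ℝ) : ℂ) - (β : ℂ)) := by ring
      rw [e5]
      refine (norm_add_le _ _).trans ?_
      rw [norm_neg]
    have h7 : ‖((q : ℝ) : ℂ) - (β : ℂ)‖ = (q : ℝ) - β := by
      rw [← Complex.ofReal_sub, Complex.norm_real, Real.norm_of_nonneg h0.le]
    rw [h7] at h6
    have h8 : ‖z - β‖ / 2 ≤ ‖((q : ℝ) : ℂ) - z‖ := by linarith
    have h9 : (‖z - β‖ / 2) ^ 2 ≤ ‖((q : ℝ) : ℂ) - z‖ ^ 2 := pow_le_pow_left₀ (by positivity) h8 2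
    nlinarith

/-- A conjugate outside the closed unit disc gives a base of length 2 which is not Parry. -/
theorem NP_main (β : ℝ) (hβ : IsIntegral ℤ β) (hβ1 : 1 < β) (z : ℂ)
    (hz : Polynomial.aeval z (minpoly ℤ β) = 0) (hzβ : z ≠ (β : ℂ)) (hz1 : 1 < ‖z‖) :
    ∃ b : ℕ → ℝ, IsAlt β 2 b ∧ InField β b ∧ ¬ IsParry 2 b := by
  set K := IntermediateField.adjoin ℚ ({β} : Set ℝ) with hKdef
  obtain ⟨σ, hσ⟩ : ∃ σ : K →ₐ[ℚ] ℂ,
      σ ⟨β, IntermediateField.mem_adjoin_simple_self ℚ β⟩ = z := CONV_hom β hβ z hz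
  have hβ0 : 0 < β := by linarith
  -- choice of k
  obtain ⟨k, hk⟩ := pow_unbounded_of_one_lt ((2 * β + 3) / (‖z‖ - 1)) hz1
  have hz2 : 0 < ‖z‖ - 1 := by linarith
  rw [div_lt_iff₀ hz2] at hk
  have hβk : 0 < β ^ k := pow_pos hβ0 k
  have hδ0 : 0 < min (min 1 (β - 1)) (1 / β ^ k) := by
    have : 0 < β - 1 := by linarith
    positivity
  obtain ⟨v, hv0, hvδ, hv1⟩ : ∃ v : K, 0 < (v : ℝ) ∧
      (v : ℝ) < min (min 1 (β - 1)) (1 / β ^ k) ∧ 1 ≤ ‖σ v‖ :=
    NP_small β σ z hσ hzβ (min (min 1 (β - 1)) (1 / β ^ k)) hδ0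
  have hvA : (v : ℝ) < 1 := lt_of_lt_of_le hvδ ((min_le_left _ _).trans (min_le_left _ _))
  have hvB : (v : ℝ) < β - 1 := lt_of_lt_of_le hvδ ((min_le_left _ _).trans (min_le_right _ _))
  have hvC : (v : ℝ) < 1 / β ^ k := lt_of_lt_of_le hvδ (min_le_right _ _)
  set c : ℝ := 1 + v with hc
  have hc1 : 1 < c := by linarith
  have hc2 : c < 2 := by linarith
  have hcβ : c < β := by linarith
  have hc0 : 0 < c := by linarith
  have hcK : c ∈ K := K.add_mem K.one_mem v.2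
  have hβK : β ∈ K := IntermediateField.mem_adjoin_simple_self ℚ β
  set b : ℕ → ℝ := fun n => if n % 2 = 0 then β / c else c with hb
  have hb0 : ∀ n, b (2 * n) = β / c := by intro n; simp [hb]
  have hb1 : ∀ n, b (2 * n + 1) = c := by
    intro n
    simp only [hb]
    rw [if_neg (by omega)]
  have hbK : InField β b := by
    intro n
    simp only [hb]
    split_ifs
    · exact K.div_mem hβK hcK
    · exact hcK
  have hper : ∀ n, b (n + 2) = b n := by intro n; simp [hb]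
  have hgt : ∀ n, 1 < b n := by
    intro n
    simp only [hb]
    split_ifs
    · rw [lt_div_iff₀ hc0]; linarith
    · exact hc1
  have halt : IsAlt β 2 b := by
    refine ⟨by norm_num, hper, hgt, ?_⟩
    rw [Finset.prod_range_succ, Finset.prod_range_one]
    have := hb0 0
    have h2 := hb1 0
    simp only [mul_zero, zero_add] at this h2
    rw [this, h2]
    field_simp
  refine ⟨b, halt, hbK, ?_⟩
  intro hP
  have hfin : (Set.range (rmd b 1)).Finite :=
    CONV_fin b 2 (by norm_num) hper hgt 1 (hP 1 (by norm_num) _ (FIN_rmd b 1))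
  -- the remainders in K
  have hrK : ∀ n, rmd b 1 n ∈ K := by
    intro n
    induction n with
    | zero => exact K.one_mem
    | succ n ih =>
      simp only [rmd]
      exact K.sub_mem (K.mul_mem (hbK _) ih) (intCast_mem K _)
  set x : ℕ → K := fun m => ⟨rmd b 1 (1 + 2 * m), hrK _⟩ with hx
  set a : ℕ → ℤ := fun m => ⌊β / c * rmd b 1 (1 + 2 * m)⌋ with ha
  set e : ℕ → ℤ := fun m => ⌊c * rmd b 1 (2 + 2 * m)⌋ with he
  set cK : K := ⟨c, hcK⟩ with hcKd
  set βK : K := ⟨β, hβK⟩ with hβKd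
  have hstep1 : ∀ m, rmd b 1 (2 + 2 * m) = β / c * rmd b 1 (1 + 2 * m) - a m := by
    intro m
    have : rmd b 1 (1 + 2 * m + 1) = b (1 + 2 * m + 1) * rmd b 1 (1 + 2 * m) -
      (⌊b (1 + 2 * m + 1) * rmd b 1 (1 + 2 * m)⌋ : ℝ) := rfl
    rw [show 1 + 2 * m + 1 = 2 * (m + 1) by ring, hb0] at this
    rw [show 2 + 2 * m = 2 * (m + 1) by ring]
    exact this
  have hstep2 : ∀ m, rmd b 1 (1 + 2 * (m + 1)) = c * rmd b 1 (2 + 2 * m) - e m := by
    intro m
    have : rmd b 1 (2 + 2 * m + 1) = b (2 + 2 * m + 1) * rmd b 1 (2 + 2 * m) -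
      (⌊b (2 + 2 * m + 1) * rmd b 1 (2 + 2 * m)⌋ : ℝ) := rfl
    rw [show 2 + 2 * m + 1 = 2 * (m + 1) + 1 by ring, hb1] at this
    rw [show 1 + 2 * (m + 1) = 2 * (m + 1) + 1 by ring]
    exact this
  have hxs : ∀ m, x (m + 1) = βK * x m - (a m : K) * cK - (e m : K) := by
    intro m
    apply Subtype.ext
    simp only [hx]
    push_cast
    rw [hstep2, hstep1]
    have e1 : ((cK : K) : ℝ) = c := rfl
    have e2 : ((βK : K) : ℝ) = β := rfl
    rw [e1, e2]
    field_simp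
  have hx0 : x 0 = v := by
    apply Subtype.ext
    simp only [hx]
    have : rmd b 1 (0 + 1) = b (0 + 1) * rmd b 1 0 - (⌊b (0 + 1) * rmd b 1 0⌋ : ℝ) := rfl
    have h2 := hb1 0
    simp only [mul_zero, zero_add] at this h2 ⊢
    rw [show (1 + 0 : ℕ) = 1 by norm_num, this, h2]
    have h3 : rmd b 1 0 = 1 := rfl
    rw [h3, mul_one]
    have h4 : ⌊c⌋ = 1 := by
      rw [Int.floor_eq_iff]
      push_cast
      constructor <;> linarith
    rw [h4, hc]
    push_cast
    ring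
  have hr01 : ∀ n, 0 ≤ rmd b 1 n ∧ rmd b 1 n ≤ 1 := CONV_range b 1
  -- bounds for the digits
  have ha0 : ∀ m, 0 ≤ a m ∧ (a m : ℝ) ≤ β := by
    intro m
    have h2 := hr01 (1 + 2 * m)
    have h3 : 0 ≤ β / c * rmd b 1 (1 + 2 * m) := mul_nonneg (by positivity) h2.1
    refine ⟨Int.floor_nonneg.2 h3, (Int.floor_le _).trans ?_⟩
    have h4 : β / c ≤ β := div_le_self hβ0.le hc1.le
    calc β / c * rmd b 1 (1 + 2 * m) ≤ β * 1 := mul_le_mul h4 h2.2 h2.1 hβ0.le
      _ = β := mul_one _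
  have he0 : ∀ m, 0 ≤ e m ∧ (e m : ℝ) ≤ 2 := by
    intro m
    have h2 := hr01 (2 + 2 * m)
    have h3 : 0 ≤ c * rmd b 1 (2 + 2 * m) := mul_nonneg hc0.le h2.1
    refine ⟨Int.floor_nonneg.2 h3, (Int.floor_le _).trans ?_⟩
    nlinarith [h2.1, h2.2]
  -- no digits at the beginning
  have hsmall : ∀ m, m ≤ k → (x m : ℝ) = β ^ m * v ∧ σ (x m) = z ^ m * σ v := by
    intro m
    induction m with
    | zero => intro _; rw [hx0]; simp
    | succ m ih =>
      intro hm
      obtain ⟨i1, i2⟩ := ih (by omega)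
      have hxm : rmd b 1 (1 + 2 * m) = β ^ m * v := i1
      have hlt : β * (β ^ m * v) < 1 := by
        have h2 : β ^ (m + 1) ≤ β ^ k := pow_le_pow_right₀ hβ1.le hm
        have h3 : β ^ k * v < 1 := by
          rw [lt_div_iff₀ hβk] at hvC
          linarith
        have h4 : β * (β ^ m * v) = β ^ (m + 1) * v := by ring
        rw [h4]
        nlinarith
      have hpos : 0 ≤ β ^ m * (v : ℝ) := by positivity
      have hay : a m = 0 := by
        simp only [ha]
        rw [Int.floor_eq_zero_iff, hxm]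
        refine ⟨by positivity, ?_⟩
        have h4 : β / c ≤ β := div_le_self hβ0.le hc1.le
        nlinarith
      have hey : e m = 0 := by
        simp only [he]
        rw [Int.floor_eq_zero_iff, hstep1, hxm, hay]
        have h5 : c * (β / c * (β ^ m * v) - ((0 : ℤ) : ℝ)) = β * (β ^ m * v) := by
          push_cast
          field_simp
          ring
        rw [h5]
        exact ⟨by positivity, hlt⟩
      have h6 := hxs m
      rw [hay, hey] at h6
      simp only [Int.cast_zero, zero_mul, sub_zero] at h6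
      refine ⟨?_, ?_⟩
      · rw [h6]
        push_cast
        rw [i1]
        have e2 : ((βK : K) : ℝ) = β := rfl
        rw [e2]
        ring
      · rw [h6, map_mul, i2]
        have : σ βK = z := hσ
        rw [this]
        ring
  set W : ℝ := ‖σ v‖ with hW
  have hcσ : ‖σ cK‖ ≤ 1 + W := by
    have : cK = 1 + v := Subtype.ext hc
    rw [this, map_add, map_one]
    refine (norm_add_le _ _).trans ?_
    simp [hW]
  have hgrow : ∀ m, ‖z‖ * ‖σ (x m)‖ - (2 * β + 2) * W ≤ ‖σ (x (m + 1))‖ := by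
    intro m
    rw [hxs m]
    have e1 : σ (βK * x m - (a m : K) * cK - (e m : K)) =
        z * σ (x m) - ((a m : ℂ) * σ cK + (e m : ℂ)) := by
      have : σ βK = z := hσ
      rw [map_sub, map_sub, map_mul, map_mul, this, map_intCast, map_intCast]
      ring
    rw [e1]
    have h2 : ‖(a m : ℂ) * σ cK + (e m : ℂ)‖ ≤ (2 * β + 2) * W := by
      refine (norm_add_le _ _).trans ?_
      rw [norm_mul]
      have h3 : ‖(a m : ℂ)‖ = a m := by
        rw [Complex.norm_intCast, abs_of_nonneg]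
        exact_mod_cast (ha0 m).1
      have h4 : ‖(e m : ℂ)‖ = e m := by
        rw [Complex.norm_intCast, abs_of_nonneg]
        exact_mod_cast (he0 m).1
      rw [h3, h4]
      have h5 := (ha0 m).2
      have h6 := (he0 m).2
      have h7 : (0 : ℝ) ≤ a m := by exact_mod_cast (ha0 m).1
      have h8 : (a m : ℝ) * ‖σ cK‖ ≤ β * (1 + W) := mul_le_mul h5 hcσ (norm_nonneg _) hβ0.le
      nlinarith
    have h9 := norm_sub_norm_le (z * σ (x m)) ((a m : ℂ) * σ cK + (e m : ℂ))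
    rw [norm_mul] at h9
    linarith
  have hinf : ∀ j : ℕ, ‖z‖ ^ k * W + j * W ≤ ‖σ (x (k + j))‖ := by
    intro j
    induction j with
    | zero =>
      rw [add_zero, (hsmall k le_rfl).2, norm_mul, norm_pow]
      simp [hW]
    | succ j ih =>
      have h2 := hgrow (k + j)
      rw [show k + (j + 1) = k + j + 1 by ring]
      have h3 : ‖z‖ ^ k * W ≤ ‖σ (x (k + j))‖ := by
        have : 0 ≤ (j : ℝ) * W := by positivity
        linarith
      have h4 : (2 * β + 3) * W ≤ (‖z‖ - 1) * ‖σ (x (k + j))‖ := by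
        have h5 : (‖z‖ - 1) * (‖z‖ ^ k * W) ≤ (‖z‖ - 1) * ‖σ (x (k + j))‖ :=
          mul_le_mul_of_nonneg_left h3 hz2.le
        have h6 : (2 * β + 3) * W ≤ (‖z‖ ^ k * (‖z‖ - 1)) * W :=
          mul_le_mul_of_nonneg_right hk.le (by linarith)
        nlinarith
      push_cast
      nlinarith
  -- contradiction: finitely many remainders have bounded conjugates
  have hbd : ∃ B : ℝ, ∀ m, ‖σ (x m)‖ ≤ B := by
    have h2 : (Set.range x).Finite := by
      have h3 : (Set.range (fun m => ((x m : K) : ℝ))).Finite :=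
        hfin.subset (by rintro _ ⟨m, rfl⟩; exact ⟨1 + 2 * m, rfl⟩)
      have h4 : Set.range (fun m => ((x m : K) : ℝ)) = (fun y : K => (y : ℝ)) '' Set.range x := by
        rw [← Set.range_comp]
        rfl
      rw [h4] at h3
      exact h3.of_finite_image (Subtype.val_injective.injOn)
    obtain ⟨B, hB⟩ := (h2.image (fun y => ‖σ y‖)).bddAbove
    exact ⟨B, fun m => hB ⟨x m, ⟨m, rfl⟩, rfl⟩⟩
  obtain ⟨B, hB⟩ := hbd
  obtain ⟨j, hj⟩ := exists_nat_gt B
  have h2 := hinf j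
  have h3 := hB (k + j)
  have h4 : (j : ℝ) ≤ j * W := by
    have : (0 : ℝ) ≤ j := by positivity
    nlinarith
  have h5 : 0 ≤ ‖z‖ ^ k * W := by positivity
  linarith

theorem NP_all (β : ℝ) (hβ1 : 1 < β)
    (h : ∀ (p : ℕ) (b : ℕ → ℝ), IsAlt β p b → InField β b → IsParry p b) :
    IsPisot β ∨ IsSalem β := by
  have hb : IsAlt β 1 (fun _ => β) := ⟨one_pos, fun _ => rfl, fun _ => hβ1, by simp⟩
  have hK : InField β (fun _ => β) := fun _ => IntermediateField.mem_adjoin_simple_self ℚ β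
  have hP := FIN_parry_perron β 1 (fun _ => β) hb hK (h 1 _ hb hK)
  have hle : ∀ z : ℂ, Polynomial.aeval z (minpoly ℤ β) = 0 → z ≠ (β : ℂ) → ‖z‖ ≤ 1 := by
    intro z hz hzβ
    by_contra hcon
    rw [not_le] at hcon
    obtain ⟨b, h1, h2, h3⟩ := NP_main β hP.1 hβ1 z hz hzβ hcon
    exact h3 (h 2 b h1 h2)
  by_cases hex : ∃ z : ℂ, Polynomial.aeval z (minpoly ℤ β) = 0 ∧ ‖z‖ = 1
  · exact Or.inr ⟨hP.1, hβ1, hle, hex⟩
  · refine Or.inl ⟨hP.1, hβ1, fun z hz hzβ => lt_of_le_of_ne (hle z hz hzβ) ?_⟩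
    intro h1
    exact hex ⟨z, hz, h1⟩

theorem NP_pisot (β : ℝ) (h : IsPisot β) : IsPerron β :=
  ⟨h.1, h.2.1, fun z hz hzβ => (h.2.2 z hz hzβ).trans h.2.1⟩

end Pool.Agent.PX
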