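import Pool.Agent.helper93.PX.All

set_option autoImplicit false

namespace Pool.Agent.PX

open Polynomial

section
variable {K : IntermediateField ℚ ℝ}

/-- bound for the conjugate of the digit part of a run -/
noncomputable def bnd (σ : K →ₐ[ℚ] ℂ) : List K → ℝ
  | [] => 0
  | a :: L => (a : ℝ) * ‖σ L.prod‖ + bnd σ L

/-- the same with a final factor t -/
noncomputable def bnd' (σ : K →ₐ[ℚ] ℂ) (t : K) : List K → ℝ
  | [] => 0
  | a :: L => (a : ℝ) * ‖σ (L.prod * t)‖ + bnd' σ t L

theorem NPD_append (σ : K →ₐ[ℚ] ℂ) (l2 : List K) : ∀ l1 : List K,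
    bnd σ (l1 ++ l2) = bnd' σ l2.prod l1 + bnd σ l2 := by
  intro l1
  induction l1 with
  | nil => simp [bnd']
  | cons a l1 ih => simp only [List.cons_append, bnd, bnd', ih, List.prod_append]; ring

theorem NPD_bnd'_nonneg (σ : K →ₐ[ℚ] ℂ) (t : K) : ∀ l : List K, (∀ a ∈ l, (1 : ℝ) < a) →
    0 ≤ bnd' σ t l := by
  intro l
  induction l with
  | nil => intro _; simp [bnd']
  | cons a l ih =>
    intro h
    have h1 := ih (fun x hx => h x (List.mem_cons_of_mem _ hx))
    have h2 := h a (by simp)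
    simp only [bnd']
    have : 0 ≤ (a : ℝ) * ‖σ (l.prod * t)‖ := mul_nonneg (by linarith) (norm_nonneg _)
    linarith

theorem NPD_run (σ : K →ₐ[ℚ] ℂ) : ∀ (L : List K) (x : K), (∀ a ∈ L, (1 : ℝ) < a) →
    0 ≤ (x : ℝ) → (x : ℝ) ≤ 1 →
    ∃ D : K, run (L.map (fun a : K => (a : ℝ))) x = ((L.prod * x - D : K) : ℝ) ∧
      ‖σ D‖ ≤ bnd σ L := by
  intro L
  induction L with
  | nil => intro x _ _ _; exact ⟨0, by simp [run], by simp [bnd]⟩
  | cons a L ih =>
    intro x hL hx0 hx1
    have ha := hL a (by simp)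
    have hax : 0 ≤ (a : ℝ) * x := mul_nonneg (by linarith) hx0
    set d : ℤ := ⌊(a : ℝ) * x⌋ with hd
    have hd0 : 0 ≤ d := Int.floor_nonneg.2 hax
    have hda : (d : ℝ) ≤ a := (Int.floor_le _).trans (by nlinarith)
    obtain ⟨D, hD1, hD2⟩ := ih (a * x - (d : K)) (fun y hy => hL y (List.mem_cons_of_mem _ hy))
      (by push_cast; exact sub_nonneg.2 (Int.floor_le _))
      (by push_cast; linarith [Int.lt_floor_add_one ((a : ℝ) * x)])
    refine ⟨D + (d : K) * L.prod, ?_, ?_⟩
    · simp only [List.map_cons, run]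
      have e : (a : ℝ) * x - ((⌊(a : ℝ) * x⌋ : ℤ) : ℝ) = ((a * x - (d : K) : K) : ℝ) := by
        push_cast
        rfl
      rw [e, hD1, List.prod_cons]
      congr 1
      ring
    · simp only [bnd]
      rw [map_add, map_mul, map_intCast]
      refine (norm_add_le _ _).trans ?_
      rw [norm_mul]
      have h3 : ‖(d : ℂ)‖ = d := by
        rw [Complex.norm_intCast, abs_of_nonneg]
        exact_mod_cast hd0
      rw [h3]
      have := mul_le_mul_of_nonneg_right hda (norm_nonneg (σ L.prod))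
      linarith

theorem NPD_prod_range {M : Type*} [CommMonoid M] (f : ℕ → M) (n : ℕ) :
    ((List.range n).map f).prod = ∏ i ∈ Finset.range n, f i := by
  induction n with
  | zero => simp
  | succ n ih => rw [List.range_succ, List.map_append, List.prod_append, ih,
      Finset.prod_range_succ]; simp

theorem NPD_run0 : ∀ (L : List K) (x : K), (∀ a ∈ L, (1 : ℝ) < a) → 0 ≤ (x : ℝ) →
    ((L.prod * x : K) : ℝ) < 1 →
    run (L.map (fun a : K => (a : ℝ))) x = ((L.prod * x : K) : ℝ) := by
  intro L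
  induction L with
  | nil => intro x _ _ _; simp [run]
  | cons a L ih =>
    intro x hL hx0 hx1
    have ha := hL a (by simp)
    have hax : 0 ≤ (a : ℝ) * x := mul_nonneg (by linarith) hx0
    have hP : ∀ l : List K, (∀ a ∈ l, (1 : ℝ) < a) → (1 : ℝ) ≤ ((l.prod : K) : ℝ) := by
      intro l
      induction l with
      | nil => intro _; simp
      | cons y l ihl =>
        intro h
        have h1 := ihl (fun z hz => h z (List.mem_cons_of_mem _ hz))
        have h2 := h y (by simp)
        rw [List.prod_cons]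
        have e : ((y * l.prod : K) : ℝ) = (y : ℝ) * ((l.prod : K) : ℝ) := rfl
        rw [e]
        nlinarith
    have hLp := hP L (fun y hy => hL y (List.mem_cons_of_mem _ hy))
    have e1 : (((a :: L).prod * x : K) : ℝ) = ((L.prod : K) : ℝ) * ((a : ℝ) * x) := by
      rw [List.prod_cons]
      have e : ((a * L.prod * x : K) : ℝ) = (a : ℝ) * ((L.prod : K) : ℝ) * x := rfl
      rw [e]
      ring
    rw [e1] at hx1 ⊢
    have hax1 : (a : ℝ) * x < 1 := by nlinarith
    have hfl : ⌊(a : ℝ) * x⌋ = 0 := Int.floor_eq_zero_iff.2 ⟨hax, hax1⟩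
    simp only [List.map_cons, run, hfl, Int.cast_zero, sub_zero]
    have e2 : (a : ℝ) * x = ((a * x : K) : ℝ) := by push_cast; rfl
    rw [e2, ih (a * x) (fun y hy => hL y (List.mem_cons_of_mem _ hy)) (by push_cast; exact hax)
      hx1]
    rfl

end

/-- The base of length p + 1 obtained from b by splitting the last entry as (b (p-1) / c) * c. -/
noncomputable def split (p : ℕ) (b : ℕ → ℝ) (c : ℝ) (n : ℕ) : ℝ :=
  if n % (p + 1) + 1 < p then b (n % (p + 1))
  else if n % (p + 1) + 1 = p then b (p - 1) / c else c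

theorem NPD_main (β : ℝ) (hβ : IsIntegral ℤ β) (hβ1 : 1 < β) (z : ℂ)
    (hz : Polynomial.aeval z (minpoly ℤ β) = 0) (hzβ : z ≠ (β : ℂ)) (hz1 : 1 < ‖z‖)
    (p : ℕ) (b : ℕ → ℝ) (hb : IsAlt β p b) (hbK : InField β b) (ε : ℝ) (hε : 0 < ε) :
    ∃ c : ℝ, 1 < c ∧ c < 1 + ε ∧ IsAlt β (p + 1) (split p b c) ∧ InField β (split p b c) ∧
      ¬ IsParry (p + 1) (split p b c) := by
  set K := IntermediateField.adjoin ℚ ({β} : Set ℝ) with hKdef
  obtain ⟨σ, hσ⟩ : ∃ σ : K →ₐ[ℚ] ℂ,
      σ ⟨β, IntermediateField.mem_adjoin_simple_self ℚ β⟩ = z := CONV_hom β hβ z hz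
  obtain ⟨hp, hper, h1, hprod⟩ := hb
  obtain ⟨q, rfl⟩ : ∃ q, p = q + 1 := ⟨p - 1, by omega⟩
  have hβ0 : 0 < β := by linarith
  have hβK : β ∈ K := IntermediateField.mem_adjoin_simple_self ℚ β
  set βK : K := ⟨β, hβK⟩ with hβKd
  set bK : ℕ → K := fun n => ⟨b n, hbK n⟩ with hbKd
  set pre : List K := (List.range q).map bK with hpre
  have hpre1 : ∀ a ∈ pre, (1 : ℝ) < a := by
    intro a ha
    obtain ⟨n, _, rfl⟩ := List.mem_map.1 ha
    exact h1 n
  -- the constant
  set Q₀ := bnd' σ (bK q) pre with hQ₀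
  have hQ₀0 : 0 ≤ Q₀ := NPD_bnd'_nonneg σ (bK q) pre hpre1
  set Q : ℝ := Q₀ + 2 * β + 2 with hQ
  obtain ⟨k, hk⟩ := pow_unbounded_of_one_lt ((Q + 1) / (‖z‖ - 1)) hz1
  have hz2 : 0 < ‖z‖ - 1 := by linarith
  rw [div_lt_iff₀ hz2] at hk
  have hβk : 0 < β ^ k := pow_pos hβ0 k
  have hbq := h1 q
  have hδ0 : 0 < min (min (min 1 ε) (b q - 1)) (1 / β ^ k) := by
    have : 0 < b q - 1 := by linarith
    positivity
  obtain ⟨v, hv0, hvδ, hv1⟩ : ∃ v : K, 0 < (v : ℝ) ∧
      (v : ℝ) < min (min (min 1 ε) (b q - 1)) (1 / β ^ k) ∧ 1 ≤ ‖σ v‖ :=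
    NP_small β σ z hσ hzβ _ hδ0
  have hvA : (v : ℝ) < 1 := lt_of_lt_of_le hvδ
    (((min_le_left _ _).trans (min_le_left _ _)).trans (min_le_left _ _))
  have hvE : (v : ℝ) < ε := lt_of_lt_of_le hvδ
    (((min_le_left _ _).trans (min_le_left _ _)).trans (min_le_right _ _))
  have hvB : (v : ℝ) < b q - 1 := lt_of_lt_of_le hvδ ((min_le_left _ _).trans (min_le_right _ _))
  have hvC : (v : ℝ) < 1 / β ^ k := lt_of_lt_of_le hvδ (min_le_right _ _)
  set cK : K := 1 + v with hcKd
  set c : ℝ := (cK : ℝ) with hcd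
  have hc : c = 1 + (v : ℝ) := by rw [hcd, hcKd]; push_cast; rfl
  have hc1 : 1 < c := by linarith
  have hc2 : c < 2 := by linarith
  have hcb : c < b q := by linarith
  have hc0 : 0 < c := by linarith
  have hcK0 : cK ≠ 0 := by
    intro h0
    rw [hcd, h0] at hc0
    simp at hc0
  set L : List K := pre ++ [bK q / cK, cK] with hL
  have hLlen : L.length = q + 2 := by simp [hL, hpre]
  have hL1 : ∀ a ∈ L, (1 : ℝ) < a := by
    intro a ha
    simp only [hL, List.mem_append, List.mem_cons, List.not_mem_nil, or_false] at ha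
    rcases ha with ha | rfl | rfl
    · exact hpre1 a ha
    · push_cast
      rw [lt_div_iff₀ hc0]
      simp only [hbKd]
      linarith
    · exact hc1
  have hLprod : L.prod = βK := by
    have e1 : pre.prod * bK q = βK := by
      apply Subtype.ext
      rw [hpre, NPD_prod_range, ← Finset.prod_range_succ]
      exact (map_prod K.val bK (Finset.range (q + 1))).trans hprod.symm
    rw [hL, List.prod_append, List.prod_cons, List.prod_cons, List.prod_nil, mul_one,
      div_mul_cancel₀ _ hcK0, e1]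
  -- the split base and its list
  set α : ℕ → ℝ := split (q + 1) b c with hα
  have hget : ∀ n, ∀ h : n < (L.map (fun a : K => (a : ℝ))).length,
      (L.map (fun a : K => (a : ℝ)))[n] = α n := by
    intro n h
    have hn : n < q + 2 := by
      rw [List.length_map, hLlen] at h
      exact h
    rw [List.getElem_map]
    simp only [hα, split]
    rw [Nat.mod_eq_of_lt (show n < q + 1 + 1 by omega)]
    by_cases h2 : n < q
    · rw [if_pos (by omega)]
      simp only [hL]
      rw [List.getElem_append_left (by simp [hpre]; exact h2)]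
      simp [hpre, hbKd]
    · by_cases h3 : n = q
      · subst h3
        rw [if_neg (by omega), if_pos rfl]
        simp only [hL]
        rw [List.getElem_append_right (by simp [hpre])]
        simp [hpre, hbKd, hcd]
      · have h4 : n = q + 1 := by omega
        subst h4
        rw [if_neg (by omega), if_neg (by omega)]
        simp only [hL]
        rw [List.getElem_append_right (by simp [hpre])]
        simp [hpre, hcd]
  have hαper : ∀ n, α (n + (q + 2)) = α n := by
    intro n
    simp only [hα, split]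
    rw [show q + 1 + 1 = q + 2 by ring, Nat.add_mod_right]
  have hαn : ∀ n, ∃ a ∈ L, α n = (a : ℝ) := by
    intro n
    rw [MAIN_per_mod α (q + 2) hαper n]
    have hlt : n % (q + 2) < (L.map (fun a : K => (a : ℝ))).length := by
      rw [List.length_map, hLlen]
      exact Nat.mod_lt _ (by omega)
    rw [← hget _ hlt, List.getElem_map]
    exact ⟨_, List.getElem_mem _, rfl⟩
  have hα1 : ∀ n, 1 < α n := by
    intro n
    obtain ⟨a, ha, e⟩ := hαn n
    rw [e]
    exact hL1 a ha
  have hαK : InField β α := by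
    intro n
    obtain ⟨a, _, e⟩ := hαn n
    rw [e]
    exact a.2
  have hαalt : IsAlt β (q + 1 + 1) α := by
    refine ⟨by omega, hαper, hα1, ?_⟩
    have e1 : ∏ i ∈ Finset.range (q + 2), α i = (L.map (fun a : K => (a : ℝ))).prod := by
      have h2 := MAIN_prod_Ico α (L.map (fun a : K => (a : ℝ))) 0 (fun i hi => by
        rw [zero_add]
        exact (hget i hi).symm)
      rw [List.length_map, hLlen, zero_add, ← Finset.range_eq_Ico] at h2
      exact h2
    have e2 : (L.map (fun a : K => (a : ℝ))).prod = ((L.prod : K) : ℝ) :=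
      (map_list_prod K.val L).symm
    rw [show q + 1 + 1 = q + 2 by ring, e1, e2, hLprod]
  refine ⟨c, hc1, by linarith, hαalt, hαK, ?_⟩
  intro hP
  have hfin : (Set.range (rmd α (q + 1))).Finite :=
    CONV_fin α (q + 2) (by omega) hαper hα1 (q + 1) (hP (q + 1) (by omega) _ (FIN_rmd α _))
  have hrK : ∀ n, rmd α (q + 1) n ∈ K := by
    intro n
    induction n with
    | zero => exact K.one_mem
    | succ n ih =>
      simp only [rmd]
      exact K.sub_mem (K.mul_mem (hαK _) ih) (intCast_mem K _)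
  set x : ℕ → K := fun m => ⟨rmd α (q + 1) (1 + (q + 2) * m), hrK _⟩ with hx
  have hx01 : ∀ m, 0 ≤ (x m : ℝ) ∧ (x m : ℝ) ≤ 1 := fun m => CONV_range α (q + 1) _
  have hxs : ∀ m, (x (m + 1) : ℝ) = run (L.map (fun a : K => (a : ℝ))) (x m : ℝ) := by
    intro m
    have h2 := RC α (q + 1) (rmd α (q + 1)) (fun n => rfl) (L.map (fun a : K => (a : ℝ)))
      (1 + (q + 2) * m) (fun n hn => by
        rw [hget n hn]
        have : 1 + (q + 2) * m + n + (q + 1) = n + (q + 2) * (m + 1) := by ring
        rw [this]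
        have h3 : ∀ j, α (n + (q + 2) * j) = α n := by
          intro j
          induction j with
          | zero => simp
          | succ j ih => rw [show n + (q + 2) * (j + 1) = n + (q + 2) * j + (q + 2) by ring,
              hαper, ih]
        exact (h3 (m + 1)).symm)
    rw [List.length_map, hLlen] at h2
    simp only [hx]
    rw [show 1 + (q + 2) * (m + 1) = 1 + (q + 2) * m + (q + 2) by ring]
    exact h2
  have hx0 : x 0 = v := by
    apply Subtype.ext
    simp only [hx]
    have e0 : rmd α (q + 1) (0 + 1) = α (0 + (q + 1)) * rmd α (q + 1) 0 -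
      (⌊α (0 + (q + 1)) * rmd α (q + 1) 0⌋ : ℝ) := rfl
    have e1 : α (q + 1) = c := by
      simp only [hα, split]
      rw [Nat.mod_eq_of_lt (show q + 1 < q + 1 + 1 by omega), if_neg (by omega),
        if_neg (by omega)]
    have e2 : rmd α (q + 1) 0 = 1 := rfl
    have e3 : ⌊c⌋ = 1 := by
      rw [Int.floor_eq_iff]
      push_cast
      constructor <;> linarith
    rw [zero_add, zero_add, e1, e2, mul_one, e3] at e0
    rw [show 1 + (q + 2) * 0 = 1 by ring, e0, hc]
    push_cast
    ring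
  set W : ℝ := ‖σ v‖ with hW
  have hcσ : ‖σ cK‖ ≤ 1 + W := by
    rw [hcKd, map_add, map_one]
    refine (norm_add_le _ _).trans ?_
    simp [hW]
  have hbqβ : b q ≤ β := by
    have e1 : (1 : ℝ) ≤ ∏ i ∈ Finset.range q, b i :=
      Finset.prod_induction b (fun x => 1 ≤ x) (fun u v hu hv => by nlinarith) le_rfl
        (fun i _ => (h1 i).le)
    rw [hprod, Finset.prod_range_succ]
    nlinarith
  have hbnd : bnd σ L ≤ Q * W := by
    rw [hL, NPD_append]
    have e1 : ([bK q / cK, cK] : List K).prod = bK q := by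
      simp only [List.prod_cons, List.prod_nil, mul_one]
      exact div_mul_cancel₀ _ hcK0
    rw [e1]
    simp only [bnd, List.prod_cons, List.prod_nil, mul_one, map_one, norm_one, add_zero]
    rw [← hQ₀]
    have e2 : ((bK q / cK : K) : ℝ) = b q / c := by push_cast; rfl
    rw [e2]
    have e3 : b q / c ≤ β := (div_le_self (by linarith) hc1.le).trans hbqβ
    have e4 : b q / c * ‖σ cK‖ ≤ β * (1 + W) := mul_le_mul e3 hcσ (norm_nonneg _) hβ0.le
    have e5 : Q₀ ≤ Q₀ * W := by nlinarith
    have e6 : c ≤ 2 * W := by nlinarith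
    have e7 : β * 1 ≤ β * W := mul_le_mul_of_nonneg_left hv1 hβ0.le
    rw [hQ]
    nlinarith
  have hσβ : σ βK = z := hσ
  have hgrow : ∀ m, ‖z‖ * ‖σ (x m)‖ - Q * W ≤ ‖σ (x (m + 1))‖ := by
    intro m
    obtain ⟨D, hD1, hD2⟩ := NPD_run σ L (x m) hL1 (hx01 m).1 (hx01 m).2
    have e1 : x (m + 1) = βK * x m - D := by
      apply Subtype.ext
      rw [hxs, hD1, hLprod]
    rw [e1, map_sub, map_mul, hσβ]
    have h9 := norm_sub_norm_le (z * σ (x m)) (σ D)
    rw [norm_mul] at h9
    linarith
  have hsmall : ∀ m, m ≤ k → (x m : ℝ) = β ^ m * v ∧ σ (x m) = z ^ m * σ v := by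
    intro m
    induction m with
    | zero => intro _; rw [hx0]; simp
    | succ m ih =>
      intro hm
      obtain ⟨i1, i2⟩ := ih (by omega)
      have hlt : β * (β ^ m * v) < 1 := by
        have h2 : β ^ (m + 1) ≤ β ^ k := pow_le_pow_right₀ hβ1.le hm
        have h3 : β ^ k * v < 1 := by
          rw [lt_div_iff₀ hβk] at hvC
          linarith
        have h4 : β * (β ^ m * v) = β ^ (m + 1) * v := by ring
        rw [h4]
        nlinarith
      have e0 : ((L.prod * x m : K) : ℝ) = β * (β ^ m * v) := by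
        rw [hLprod, ← i1]
        rfl
      have e1 : x (m + 1) = βK * x m := by
        apply Subtype.ext
        rw [hxs, NPD_run0 L (x m) hL1 (hx01 m).1 (by rw [e0]; exact hlt), hLprod]
      refine ⟨?_, ?_⟩
      · rw [e1]
        have e2 : ((βK * x m : K) : ℝ) = β * (x m : ℝ) := rfl
        rw [e2, i1]
        ring
      · rw [e1, map_mul, i2, hσβ]
        ring
  have hinf : ∀ j : ℕ, ‖z‖ ^ k * W + j * W ≤ ‖σ (x (k + j))‖ := by
    intro j
    induction j with
    | zero =>
      rw [add_zero, (hsmall k le_rfl).2, norm_mul, norm_pow]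
      simp [hW]
    | succ j ih =>
      have h2 := hgrow (k + j)
      rw [show k + (j + 1) = k + j + 1 by ring]
      have h3 : ‖z‖ ^ k * W ≤ ‖σ (x (k + j))‖ := by
        have : 0 ≤ (j : ℝ) * W := by positivity
        linarith
      have h4 : (Q + 1) * W ≤ (‖z‖ - 1) * ‖σ (x (k + j))‖ := by
        have h5 : (‖z‖ - 1) * (‖z‖ ^ k * W) ≤ (‖z‖ - 1) * ‖σ (x (k + j))‖ :=
          mul_le_mul_of_nonneg_left h3 hz2.le
        have h6 : (Q + 1) * W ≤ (‖z‖ ^ k * (‖z‖ - 1)) * W :=
          mul_le_mul_of_nonneg_right hk.le (by linarith)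
        nlinarith
      push_cast
      nlinarith
  have hbd : ∃ B : ℝ, ∀ m, ‖σ (x m)‖ ≤ B := by
    have h2 : (Set.range x).Finite := by
      have h3 : (Set.range (fun m => ((x m : K) : ℝ))).Finite :=
        hfin.subset (by rintro _ ⟨m, rfl⟩; exact ⟨1 + (q + 2) * m, rfl⟩)
      have h4 : Set.range (fun m => ((x m : K) : ℝ)) = (fun y : K => (y : ℝ)) '' Set.range x := by
        rw [← Set.range_comp]
        rfl
      rw [h4] at h3
      exact h3.of_finite_image (Subtype.val_injective.injOn)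
    obtain ⟨B, hB⟩ := (h2.image (fun y => ‖σ y‖)).bddAbove
    exact ⟨B, fun m => hB ⟨x m, ⟨m, rfl⟩, rfl⟩⟩
  obtain ⟨B, hB⟩ := hbd
  obtain ⟨j, hj⟩ := exists_nat_gt B
  have h2 := hinf j
  have h3 := hB (k + j)
  have h4 : (j : ℝ) ≤ j * W := by
    have : (0 : ℝ) ≤ j := by positivity
    nlinarith
  have h5 : 0 ≤ ‖z‖ ^ k * W := by positivity
  linarith

end Pool.Agent.PX
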